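import Pool.Agent.Lib.MP_4ba7b3_gt.Chains

/-! Ladders `A j - S j = P * 2 ^ j` of numbers congruent to one modulo `P`, and the two chains
attached to a sequence of block moduli. -/

namespace Pool.Agent.Lib.MP_4ba7b3_gt

open Filter Topology

/-- The multiplier used in block `m`; it is `-1` modulo `p + 1`. -/
def rr (p m : ℕ) : ℕ := (p + 1) * (m + 2) + p

/-- The small side of the ladder for `P = p + 1`. -/
def lS (p m : ℕ) : ℕ → ℕ
  | 0 => 1
  | j + 1 => lS p m j * (2 + rr p m * (lS p m j + (p + 1) * 2 ^ j))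

/-- The large side of the ladder. -/
def lA (p m j : ℕ) : ℕ := lS p m j + (p + 1) * 2 ^ j

lemma lS_succ (p m j : ℕ) : lS p m (j + 1) = lS p m j * (2 + rr p m * lA p m j) := rfl

lemma lA_succ (p m j : ℕ) : lA p m (j + 1) = lA p m j * (2 + rr p m * lS p m j) := by
  simp only [lA, lS]; ring

lemma lS_pos (p m j : ℕ) : 0 < lS p m j := by
  induction j with
  | zero => simp [lS]
  | succ j ih => rw [lS_succ]; positivity

lemma lA_pos (p m j : ℕ) : 0 < lA p m j := by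
  have := lS_pos p m j
  unfold lA; omega

lemma fac_mod {p m x : ℕ} (h : x ≡ 1 [MOD p + 1]) : 2 + rr p m * x ≡ 1 [MOD p + 1] := by
  have h1 : 2 + rr p m * x ≡ 2 + rr p m * 1 [MOD p + 1] := (h.mul_left _).add_left _
  refine h1.trans ?_
  have : 2 + rr p m * 1 = 1 + (p + 1) * (m + 3) := by unfold rr; ring
  rw [this]
  simp [Nat.ModEq]

lemma lS_mod (p m j : ℕ) : lS p m j ≡ 1 [MOD p + 1] := by
  induction j with
  | zero => rfl
  | succ j ih =>
    rw [lS_succ]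
    have h : lA p m j ≡ 1 [MOD p + 1] := by
      unfold lA
      simpa [Nat.ModEq] using ih
    simpa using ih.mul (fac_mod h)

lemma lA_mod (p m j : ℕ) : lA p m j ≡ 1 [MOD p + 1] := by
  have := lS_mod p m j
  unfold lA
  simpa [Nat.ModEq] using this

/-- The cost of block `m`. -/
def cost (p m : ℕ) : ℕ := lA p m m * lS p m m * (1 + (p + 1) * (m + 2))

lemma cost_pos (p m : ℕ) : 0 < cost p m := by
  have := lA_pos p m m
  have := lS_pos p m m
  unfold cost; positivity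

lemma cost_mod (p m : ℕ) : cost p m ≡ 1 [MOD p + 1] := by
  have h : 1 + (p + 1) * (m + 2) ≡ 1 [MOD p + 1] := by simp [Nat.ModEq]
  simpa [cost] using ((lA_mod p m m).mul (lS_mod p m m)).mul h

lemma lA_le (p m j : ℕ) : (rr p m + 2) * lA p m j ≤ ((rr p m + 2) * (p + 2)) ^ 2 ^ j := by
  induction j with
  | zero => simp only [lA, lS]; apply le_of_eq; ring
  | succ j ih =>
    have h1 := lA_pos p m j
    have h2 : lS p m j ≤ lA p m j := Nat.le_add_right _ _
    have h3 : 2 + rr p m * lS p m j ≤ (rr p m + 2) * lA p m j := by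
      have := Nat.mul_le_mul_left (rr p m) h2
      nlinarith
    rw [lA_succ, pow_succ, pow_mul, sq, ← mul_assoc]
    exact Nat.mul_le_mul ih (h3.trans ih)

lemma log_cost (p m : ℕ) : Real.log (cost p m) ≤ 16 * (2 * p + 3) * (9 / 4) ^ m := by
  have h1 := lA_le p m m
  have h2 : lS p m m ≤ lA p m m := Nat.le_add_right _ _
  set Z := (rr p m + 2) * (p + 2) with hZ
  have h3 : cost p m ≤ Z ^ (2 ^ m * 2) := by
    rw [pow_mul, sq]
    have a : lA p m m ≤ Z ^ 2 ^ m := le_trans (Nat.le_mul_of_pos_left _ (by omega)) h1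
    have b : lS p m m * (1 + (p + 1) * (m + 2)) ≤ Z ^ 2 ^ m := by
      refine le_trans ?_ h1
      rw [mul_comm]
      exact Nat.mul_le_mul (by unfold rr; omega) h2
    unfold cost
    rw [mul_assoc]
    exact Nat.mul_le_mul a b
  have h4 : Z ≤ (p + 2) * (p + 2) * (m + 3) := by
    rw [hZ]; unfold rr; nlinarith [Nat.zero_le (p * m), Nat.zero_le p, Nat.zero_le m]
  have hZ0 : 0 < Z := by rw [hZ]; positivity
  have h5 : Real.log Z ≤ 2 * p + m + 4 := by
    have a : (Z : ℝ) ≤ (p + 2) * (p + 2) * (m + 3) := by exact_mod_cast h4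
    have b := Real.log_le_log (by exact_mod_cast hZ0) a
    rw [Real.log_mul (by positivity) (by positivity),
      Real.log_mul (by positivity) (by positivity)] at b
    have c := Real.log_le_sub_one_of_pos (show (0 : ℝ) < p + 2 by positivity)
    have d := Real.log_le_sub_one_of_pos (show (0 : ℝ) < m + 3 by positivity)
    linarith
  have h6 : Real.log (cost p m) ≤ 2 ^ m * 2 * (2 * p + m + 4) := by
    have a : (cost p m : ℝ) ≤ (Z : ℝ) ^ (2 ^ m * 2) := by exact_mod_cast h3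
    have b := Real.log_le_log (by exact_mod_cast cost_pos p m) a
    rw [Real.log_pow] at b
    push_cast at b
    exact b.trans (mul_le_mul_of_nonneg_left h5 (by positivity))
  have h7 : 1 + (m : ℝ) * (1 / 8) ≤ (1 + 1 / 8) ^ m := one_add_mul_le_pow (by norm_num) m
  have h8 : (9 / 4 : ℝ) ^ m = 2 ^ m * (1 + 1 / 8) ^ m := by rw [← mul_pow]; norm_num
  have h9 : (2 * p + m + 4 : ℝ) ≤ (2 * p + 3) * (8 * (1 + 1 / 8) ^ m) := by
    have a : (0 : ℝ) ≤ p := Nat.cast_nonneg p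
    have b : (0 : ℝ) ≤ m := Nat.cast_nonneg m
    have c : (2 * p + 3 : ℝ) * (8 + m) ≤ (2 * p + 3) * (8 * (1 + 1 / 8) ^ m) :=
      mul_le_mul_of_nonneg_left (by linarith) (by positivity)
    nlinarith [mul_nonneg a b]
  calc Real.log (cost p m) ≤ 2 ^ m * 2 * (2 * p + m + 4) := h6
    _ ≤ 2 ^ m * 2 * ((2 * p + 3) * (8 * (1 + 1 / 8) ^ m)) :=
        mul_le_mul_of_nonneg_left h9 (by positivity)
    _ = _ := by rw [h8]; ring

/-- A `D_∞`-sequence that is cofinal with the moduli `M`. -/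
def GoodChain (M c : ℕ → ℕ) : Prop :=
  c 0 = 1 ∧ (∀ n, 0 < c n) ∧ (∀ n, c n ∣ c (n + 1)) ∧ (∀ n, c n ≠ c (n + 1)) ∧
    Tendsto (fun n => (c (n + 1) : ℝ) / c n) atTop atTop ∧
    (∀ m, ∃ n, M m ∣ c n) ∧ ∀ n, ∃ m, c n ∣ M m

lemma chain_of (M : ℕ → ℕ) (B f : ℕ → ℕ → ℕ) (e : ℕ → ℕ) (hM : ∀ m, 0 < M m)
    (hB : ∀ m j, 0 < B m j) (hf : ∀ m j, B m (j + 1) = B m j * f m j) (hf2 : ∀ m j, m + 2 ≤ f m j)
    (he : ∀ m, m + 2 ≤ e m) (h0 : B 0 0 * e 0 ∣ M 0)
    (hs : ∀ m, M m * (B (m + 1) (m + 1) * e (m + 1)) ∣ M (m + 1)) :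
    ∃ c, GoodChain M c ∧ ∀ m j, j ≤ m → ∃ i, 1 ≤ i ∧ c i * B m j = M m := by
  have top : ∀ m, B m m ∣ M m := by
    rintro (_ | m)
    · exact (Dvd.intro _ rfl).trans h0
    · exact ((Dvd.intro _ rfl).trans (Dvd.intro_left _ rfl)).trans (hs m)
  have dv : ∀ m j d, B m j ∣ B m (j + d) := by
    intro m j d
    induction d with
    | zero => exact dvd_rfl
    | succ d ih => rw [← add_assoc, hf]; exact ih.mul_right _
  set W : ℕ × ℕ → ℕ := fun s => M s.1 / B s.1 s.2 with hWd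
  have Wm : ∀ {m j}, j ≤ m → W (m, j) * B m j = M m := by
    intro m j h
    obtain ⟨d, rfl⟩ := Nat.exists_eq_add_of_le h
    exact Nat.div_mul_cancel ((dv _ _ _).trans (top _))
  have Wt : ∀ m, ∃ w, 0 < w ∧ W (m + 1, m + 1) = M m * (e (m + 1) * w) := by
    intro m
    obtain ⟨w, hw⟩ := hs m
    refine ⟨w, Nat.pos_of_ne_zero fun h => ?_, ?_⟩
    · rw [h, mul_zero] at hw; exact (hM _).ne' hw
    · apply Nat.eq_of_mul_eq_mul_right (hB (m + 1) (m + 1))
      rw [Wm le_rfl, hw]; ring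
  have hW : ∀ n j, j ≤ n → ∃ q, n + 2 ≤ q ∧ W (next (n, j)) = q * W (n, j) := by
    intro n j h
    cases j with
    | zero =>
      obtain ⟨w, w0, hw⟩ := Wt n
      refine ⟨B n 0 * (e (n + 1) * w), ?_, ?_⟩
      · have := he (n + 1)
        calc n + 2 ≤ e (n + 1) := by omega
          _ ≤ e (n + 1) * w := Nat.le_mul_of_pos_right _ w0
          _ ≤ _ := Nat.le_mul_of_pos_left _ (hB _ _)
      · simp only [next, if_true]
        rw [hw, ← Wm h]; ring
    | succ j =>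
      refine ⟨f n j, hf2 n j, ?_⟩
      simp only [next, Nat.succ_ne_zero, if_false, Nat.add_sub_cancel]
      apply Nat.eq_of_mul_eq_mul_right (hB n j)
      rw [Wm (show j ≤ n by omega), ← Wm h, hf]; ring
  have W0 : 2 ≤ W (0, 0) := by
    obtain ⟨w, hw⟩ := h0
    have w0 : 0 < w := Nat.pos_of_ne_zero fun h => by
      rw [h, mul_zero] at hw; exact (hM _).ne' hw
    have : W (0, 0) = e 0 * w := by
      apply Nat.eq_of_mul_eq_mul_right (hB 0 0)
      rw [Wm le_rfl, hw]; ring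
    rw [this]
    exact (he 0).trans (Nat.le_mul_of_pos_right _ w0)
  have step : ∀ i, ∃ q, (st i).1 + 2 ≤ q ∧ chain W (i + 2) = q * chain W (i + 1) := by
    intro i
    obtain ⟨q, h1, h2⟩ := hW (st i).1 (st i).2 (st_le i)
    exact ⟨q, h1, by simp only [chain]; rw [st_succ]; exact h2⟩
  have h1 : chain W 1 = W (0, 0) := rfl
  have pos : ∀ n, 0 < chain W n := by
    intro n
    induction n with
    | zero => simp [chain]
    | succ n ih =>
      cases n with
      | zero => rw [zero_add, h1]; omega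
      | succ n =>
        obtain ⟨q, a, b⟩ := step n
        rw [b]; exact Nat.mul_pos (by omega) ih
  have hit : ∀ n j, j ≤ n → ∃ i, 1 ≤ i ∧ chain W i = W (n, j) := by
    intro n j hj
    obtain ⟨i, hi⟩ := st_surj n j hj
    exact ⟨i + 1, by omega, by simp only [chain]; rw [hi]⟩
  refine ⟨chain W, ⟨rfl, pos, ?_, ?_, ?_, ?_, ?_⟩, ?_⟩
  · rintro (_ | n)
    · simp [chain]
    · obtain ⟨q, -, b⟩ := step n
      rw [b]; exact Dvd.intro_left _ rfl
  · rintro (_ | n)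
    · rw [zero_add, h1]; simp only [chain]; omega
    · obtain ⟨q, a, b⟩ := step n
      have := pos (n + 1)
      rw [b]; nlinarith
  · rw [← tendsto_add_atTop_iff_nat 1]
    have h2 : Tendsto (fun i => (((st i).1 : ℕ) : ℝ)) atTop atTop :=
      tendsto_natCast_atTop_atTop.comp st_tendsto
    apply tendsto_atTop_mono _ h2
    intro i
    obtain ⟨q, a, b⟩ := step i
    have hp : (0 : ℝ) < chain W (i + 1) := by exact_mod_cast pos (i + 1)
    rw [show i + 1 + 1 = i + 2 from rfl, b, Nat.cast_mul, mul_div_assoc, div_self hp.ne', mul_one]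
    exact_mod_cast (by omega : (st i).1 ≤ q)
  · intro m
    obtain ⟨i, -, hi⟩ := hit (m + 1) (m + 1) le_rfl
    obtain ⟨w, -, hw⟩ := Wt m
    exact ⟨i, by rw [hi, hw]; exact Dvd.intro _ rfl⟩
  · rintro (_ | i)
    · exact ⟨0, by simp [chain]⟩
    · exact ⟨(st i).1, Dvd.intro _ (Wm (st_le i))⟩
  · intro m j hj
    obtain ⟨i, i1, hi⟩ := hit m j hj
    exact ⟨i, i1, by rw [hi, Wm hj]⟩

/-- Two chains force `‖k P / M m‖ ≤ 2 δ / 2 ^ m`. -/
lemma two_chains_gen (P : ℕ) (M : ℕ → ℕ) (A S x y : ℕ → ℕ → ℕ) (e : ℕ → ℕ) (hM : ∀ m, 0 < M m)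
    (hS : ∀ m j, 0 < S m j) (hA : ∀ m j, A m j = S m j + P * 2 ^ j)
    (hx : ∀ m j, A m (j + 1) = A m j * x m j) (hy : ∀ m j, S m (j + 1) = S m j * y m j)
    (hx2 : ∀ m j, m + 2 ≤ x m j) (hy2 : ∀ m j, m + 2 ≤ y m j)
    (he : ∀ m, m + 2 ≤ S m m * e m) (h0 : A 0 0 * S 0 0 * e 0 ∣ M 0)
    (hs : ∀ m, M m * (A (m + 1) (m + 1) * S (m + 1) (m + 1) * e (m + 1)) ∣ M (m + 1)) :
    ∃ u v, GoodChain M u ∧ GoodChain M v ∧ ∀ (k : ℤ) (δ : ℝ), δ ≤ 1 / 8 →
      (∀ n, 1 ≤ n → ‖(((k : ℝ) / u n : ℝ) : UnitAddCircle)‖ ≤ δ) →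
      (∀ n, 1 ≤ n → ‖(((k : ℝ) / v n : ℝ) : UnitAddCircle)‖ ≤ δ) →
      ∀ m, ‖(((k : ℝ) * (P / M m) : ℝ) : UnitAddCircle)‖ ≤ 2 * δ * (1 / 2) ^ m := by
  have hA0 : ∀ m j, 0 < A m j := fun m j => by have := hS m j; rw [hA]; omega
  obtain ⟨u, gu, hu⟩ := chain_of M A x (fun m => S m m * e m) hM hA0 hx hx2 he
    (by simpa only [mul_assoc] using h0) (fun m => by simpa only [mul_assoc] using hs m)
  obtain ⟨v, gv, hv⟩ := chain_of M S y (fun m => A m m * e m) hM hS hy hy2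
    (fun m => (he m).trans (Nat.mul_le_mul_right _ (by rw [hA]; omega)))
    (by convert h0 using 1; ring) (fun m => by convert hs m using 1; ring)
  refine ⟨u, v, gu, gv, fun k δ hδ hU hV n => ?_⟩
  have h1 : ∀ j, j ≤ n → ‖2 ^ j • (((k : ℝ) * (P / M n) : ℝ) : UnitAddCircle)‖ ≤ 2 * δ := by
    intro j hj
    obtain ⟨a, a1, ha⟩ := hu n j hj
    obtain ⟨b, b1, hb⟩ := hv n j hj
    have ua : (0 : ℝ) < u a := by exact_mod_cast gu.2.1 a
    have vb : (0 : ℝ) < v b := by exact_mod_cast gv.2.1 b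
    have Mn : (0 : ℝ) < M n := by exact_mod_cast hM n
    have e1 : (k : ℝ) / u a = k * (A n j / M n) := by
      have : (u a : ℝ) * A n j = M n := by exact_mod_cast ha
      rw [← this]
      have : (0 : ℝ) < A n j := by exact_mod_cast hA0 n j
      field_simp
    have e2 : (k : ℝ) / v b = k * (S n j / M n) := by
      have : (v b : ℝ) * S n j = M n := by exact_mod_cast hb
      rw [← this]
      have : (0 : ℝ) < S n j := by exact_mod_cast hS n j
      field_simp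
    rw [← AddCircle.coe_nsmul]
    have e : (2 ^ j : ℕ) • ((k : ℝ) * (P / M n)) = k / u a - k / v b := by
      rw [e1, e2, nsmul_eq_mul, hA]; push_cast; ring
    rw [e, AddCircle.coe_sub]
    calc _ ≤ _ := norm_sub_le _ _
      _ ≤ δ + δ := add_le_add (hU a a1) (hV b b1)
      _ = 2 * δ := by ring
  have a := norm_pow_nsmul (((k : ℝ) * (P / M n) : ℝ) : UnitAddCircle) n
    (fun j hj => (h1 j hj.le).trans (by linarith))
  have b := h1 n le_rfl
  rw [a] at b
  rw [one_div_pow, mul_one_div, le_div_iff₀ (by positivity)]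
  linarith

lemma two_chains (p : ℕ) (M : ℕ → ℕ) (hM : ∀ m, 0 < M m) (h0 : cost p 0 ∣ M 0)
    (hs : ∀ m, M m * cost p (m + 1) ∣ M (m + 1)) :
    ∃ u v, GoodChain M u ∧ GoodChain M v ∧ ∀ (k : ℤ) (δ : ℝ), δ ≤ 1 / 8 →
      (∀ n, 1 ≤ n → ‖(((k : ℝ) / u n : ℝ) : UnitAddCircle)‖ ≤ δ) →
      (∀ n, 1 ≤ n → ‖(((k : ℝ) / v n : ℝ) : UnitAddCircle)‖ ≤ δ) →
      ∀ m, ‖(((k : ℝ) * ((p + 1) / M m) : ℝ) : UnitAddCircle)‖ ≤ 2 * δ * (1 / 2) ^ m := by
  have hr : ∀ m x, 0 < x → m + 2 ≤ 2 + rr p m * x := by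
    intro m x hx
    have : rr p m ≤ rr p m * x := Nat.le_mul_of_pos_right _ hx
    have : m + 2 ≤ rr p m := by unfold rr; nlinarith
    omega
  have he : ∀ m x, 0 < x → m + 2 ≤ x * (1 + (p + 1) * (m + 2)) := by
    intro m x hx
    have : 1 + (p + 1) * (m + 2) ≤ x * (1 + (p + 1) * (m + 2)) := Nat.le_mul_of_pos_left _ hx
    nlinarith
  have := two_chains_gen (p + 1) M (lA p) (lS p) (fun m j => 2 + rr p m * lS p m j)
    (fun m j => 2 + rr p m * lA p m j) (fun m => 1 + (p + 1) * (m + 2)) hM (lS_pos p)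
    (fun _ _ => rfl) (lA_succ p) (lS_succ p) (fun m j => hr m _ (lS_pos p m j))
    (fun m j => hr m _ (lA_pos p m j)) (fun m => he m _ (lS_pos p m m)) h0 hs
  simpa only [Nat.cast_add, Nat.cast_one] using this

end Pool.Agent.Lib.MP_4ba7b3_gt
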