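import Pool.Agent.Lib.MP_4ba7b3_gt.AllA

/-! Greedy expansion of a small real number as `∑ P / M n` with `M n * W n ∣ M (n + 2)`. -/

namespace Pool.Agent.Lib.MP_4ba7b3_gt

open Filter Topology

/-- The greedy modulus: a multiple of `D` by a number congruent to one modulo `p + 1`. -/
noncomputable def gM (p D : ℕ) (θ : ℝ) : ℕ := D * (1 + (p + 1) * (⌊1 / (D * θ)⌋₊ + 1))

lemma gM_spec (p D : ℕ) (θ : ℝ) (hD : 0 < D) (hθ : 0 < θ) (h1 : D * θ ≤ 1) :
    0 < θ - (p + 1) / gM p D θ ∧ θ - (p + 1) / gM p D θ ≤ 2 * D * θ ^ 2 ∧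
      gM p D θ * θ ≤ 2 * p + 3 := by
  have D0 : (0 : ℝ) < D := by exact_mod_cast hD
  have p0 : (0 : ℝ) ≤ p := Nat.cast_nonneg p
  set x := (D : ℝ) * θ with hx
  have x0 : 0 < x := mul_pos D0 hθ
  set t : ℝ := (⌊1 / x⌋₊ : ℝ) with ht
  have t1 : x * t ≤ 1 := by
    have := Nat.floor_le (show 0 ≤ 1 / x by positivity)
    rw [← ht, le_div_iff₀ x0] at this
    linarith
  have t2 : 1 < x * (t + 1) := by
    have := Nat.lt_floor_add_one (1 / x)
    rw [← ht, div_lt_iff₀ x0] at this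
    linarith
  have e : (gM p D θ : ℝ) * θ = x + (p + 1) * (x * (t + 1)) := by
    unfold gM; push_cast; rw [← hx, ← ht, hx]; ring
  have a : (p + 1 : ℝ) < gM p D θ * θ := by rw [e]; nlinarith
  have b : (gM p D θ : ℝ) * θ ≤ (p + 1) + (p + 2) * x := by rw [e]; nlinarith
  have M0 : (0 : ℝ) < gM p D θ := by
    by_contra h
    have := mul_nonpos_of_nonpos_of_nonneg (not_lt.1 h) hθ.le
    linarith
  refine ⟨?_, ?_, by nlinarith⟩
  · rw [sub_pos, div_lt_iff₀ M0]; linarith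
  · have c : θ - (p + 1) / gM p D θ = (gM p D θ * θ - (p + 1)) / gM p D θ := by field_simp
    rw [c, div_le_iff₀ M0]
    have d : 2 * (D : ℝ) * θ ^ 2 * gM p D θ = 2 * x * (gM p D θ * θ) := by rw [hx]; ring
    rw [d]
    nlinarith [mul_pos x0 (sub_pos.2 a), mul_nonneg p0 x0.le]

/-- State `(θ n, M (n - 1), M (n - 2))` of the greedy expansion. -/
noncomputable def gS (p : ℕ) (β W : ℕ → ℕ) (θ : ℝ) : ℕ → ℝ × ℕ × ℕ
  | 0 => (θ, 1, 1)
  | n + 1 =>
    ((gS p β W θ n).1 - (p + 1) / gM p (Nat.lcm (gS p β W θ n).2.2 (β n) * W n) (gS p β W θ n).1,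
      gM p (Nat.lcm (gS p β W θ n).2.2 (β n) * W n) (gS p β W θ n).1, (gS p β W θ n).2.1)

lemma greedy (p : ℕ) (β W : ℕ → ℕ) (hβ : ∀ n, 0 < β n) (hW : ∀ n, 0 < W n) (C : ℝ) (hC0 : 0 ≤ C)
    (hC : ∀ n, Real.log (β n * W n) ≤ C * (3 / 2) ^ n) :
    ∃ δ : ℝ, 0 < δ ∧ ∀ θ, 0 < θ → θ ≤ δ → ∃ M : ℕ → ℕ, M 0 = 1 ∧ M 1 = 1 ∧
      (∀ n, ∃ t, M (n + 2) = Nat.lcm (M n) (β n) * W n * (1 + (p + 1) * t)) ∧
      HasSum (fun n => ((p : ℝ) + 1) / M (n + 2)) θ := by
  have p0 : (0 : ℝ) ≤ p := Nat.cast_nonneg p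
  set κ := Real.log (2 * p + 3) with hκ
  have κ0 : 0 ≤ κ := Real.log_nonneg (by linarith)
  set E := 18 * (κ + C + 1) with hE
  refine ⟨Real.exp (-E), Real.exp_pos _, fun θ θ0 θ1 => ?_⟩
  set s := gS p β W θ with hs
  have step : ∀ n, 0 < (s n).1 → 0 < (s n).2.2 → E * (3 / 2) ^ n ≤ -Real.log (s n).1 →
      Real.log (s n).2.2 ≤ 4 / 9 * -Real.log (s n).1 + κ →
      0 < (s (n + 1)).1 ∧ 0 < (s (n + 1)).2.1 ∧
        3 / 2 * -Real.log (s n).1 ≤ -Real.log (s (n + 1)).1 ∧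
        Real.log (s (n + 1)).2.1 ≤ -Real.log (s n).1 + κ := by
    intro n a b c d
    set D := Nat.lcm (s n).2.2 (β n) * W n with hD
    have D0 : 0 < D := Nat.mul_pos (Nat.lcm_pos b (hβ n)) (hW n)
    have D0' : (0 : ℝ) < D := by exact_mod_cast D0
    have b' : (0 : ℝ) < (s n).2.2 := by exact_mod_cast b
    have w' : (0 : ℝ) < β n * W n := by exact_mod_cast Nat.mul_pos (hβ n) (hW n)
    have D1 : (D : ℝ) ≤ (s n).2.2 * (β n * W n) := by
      have : D ≤ (s n).2.2 * (β n * W n) := by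
        rw [← mul_assoc]
        exact Nat.mul_le_mul_right _
          (Nat.le_of_dvd (Nat.mul_pos b (hβ n)) (Nat.lcm_dvd_mul _ _))
      exact_mod_cast this
    have D2 := Real.log_le_log D0' D1
    rw [Real.log_mul b'.ne' w'.ne'] at D2
    have g1 : (1 : ℝ) ≤ (3 / 2) ^ n := one_le_pow₀ (by norm_num)
    have l2 : Real.log 2 ≤ 1 := by
      have := Real.log_le_sub_one_of_pos (show (0 : ℝ) < 2 by norm_num)
      linarith
    have l0 : 0 ≤ Real.log 2 := Real.log_nonneg (by norm_num)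
    have D3 : Real.log D + Real.log 2 ≤ 1 / 2 * -Real.log (s n).1 := by
      have := hC n
      rw [hE] at c
      nlinarith
    have x0 : 0 ≤ -Real.log (s n).1 := by
      refine le_trans ?_ c
      rw [hE]; positivity
    have D4 : D * (s n).1 ≤ 1 := by
      rw [← Real.log_nonpos_iff (mul_pos D0' a).le, Real.log_mul D0'.ne' a.ne']
      linarith
    obtain ⟨q1, q2, q3⟩ := gM_spec p D (s n).1 D0 a D4
    have e1 : (s (n + 1)).1 = (s n).1 - (p + 1) / gM p D (s n).1 := rfl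
    have e2 : (s (n + 1)).2.1 = gM p D (s n).1 := rfl
    have M0 : 0 < gM p D (s n).1 := by unfold gM; positivity
    have M0' : (0 : ℝ) < gM p D (s n).1 := by exact_mod_cast M0
    rw [e1, e2]
    refine ⟨q1, M0, ?_, ?_⟩
    · have := Real.log_le_log q1 q2
      rw [Real.log_mul (by positivity) (by positivity), Real.log_mul (by norm_num) D0'.ne',
        Real.log_pow] at this
      push_cast at this
      linarith
    · have := Real.log_le_log (mul_pos M0' a) q3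
      rw [Real.log_mul M0'.ne' a.ne'] at this
      linarith
  have inv : ∀ n, 0 < (s n).1 ∧ 0 < (s n).2.1 ∧ 0 < (s n).2.2 ∧
      E * (3 / 2) ^ n ≤ -Real.log (s n).1 ∧
      Real.log (s n).2.1 ≤ 2 / 3 * -Real.log (s n).1 + κ ∧
      Real.log (s n).2.2 ≤ 4 / 9 * -Real.log (s n).1 + κ := by
    intro n
    induction n with
    | zero =>
      have a : Real.log θ ≤ -E := by
        have := Real.log_le_log θ0 θ1
        rwa [Real.log_exp] at this
      have E0 : 0 ≤ E := by rw [hE]; positivity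
      have e : s 0 = (θ, 1, 1) := rfl
      rw [e]
      refine ⟨θ0, one_pos, one_pos, ?_, ?_, ?_⟩ <;> simp <;> linarith
    | succ n ih =>
      obtain ⟨a, b, c, d, e, f⟩ := ih
      obtain ⟨q1, q2, q3, q4⟩ := step n a c d f
      have e3 : (s (n + 1)).2.2 = (s n).2.1 := rfl
      rw [e3]
      refine ⟨q1, q2, b, ?_, by linarith, by linarith⟩
      rw [pow_succ]
      linarith
  refine ⟨fun n => (s n).2.2, rfl, rfl, fun n => ⟨_, rfl⟩, ?_⟩
  have part : ∀ n, ∑ i ∈ Finset.range n, ((p : ℝ) + 1) / ((s (i + 2)).2.2 : ℕ) = θ - (s n).1 := by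
    intro n
    induction n with
    | zero => simp [hs, gS]
    | succ n ih =>
      rw [Finset.sum_range_succ, ih]
      have e1 : (s (n + 1)).1 = (s n).1 - (p + 1) / ((s (n + 2)).2.2 : ℕ) := rfl
      rw [e1]; ring
  rw [hasSum_iff_tendsto_nat_of_nonneg (fun i => by positivity)]
  simp only [part]
  have lim : Tendsto (fun n => (s n).1) atTop (𝓝 0) := by
    have E1 : 1 ≤ E := by rw [hE]; linarith
    have t1 : Tendsto (fun n : ℕ => Real.exp (-(3 / 2 : ℝ) ^ n)) atTop (𝓝 0) :=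
      Real.tendsto_exp_neg_atTop_nhds_zero.comp
        (tendsto_pow_atTop_atTop_of_one_lt (by norm_num))
    refine squeeze_zero (fun n => (inv n).1.le) (fun n => ?_) t1
    obtain ⟨a, -, -, d, -⟩ := inv n
    rw [← Real.exp_log a, Real.exp_le_exp]
    have g1 : (0 : ℝ) ≤ (3 / 2) ^ n := by positivity
    nlinarith
  simpa using tendsto_const_nhds.sub lim

end Pool.Agent.Lib.MP_4ba7b3_gt
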