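import Pool.Agent.Lib.MP_4ba7b3_gt.AllB

/-! Four chains control an arbitrary real number. -/

namespace Pool.Agent.Lib.MP_4ba7b3_gt

open Filter Topology

lemma dvd_mul_coprime {b : ℕ → ℕ} (hd : ∀ m n, m ≤ n → b m ∣ b n) {P : ℕ}
    (hP : ∀ m, 0 < m → Nat.Coprime m P → ∃ n, m ∣ b n) (m : ℕ) :
    0 < m → Nat.Coprime m P → ∀ d, 0 < d → (∃ n, d ∣ b n) → ∃ n, d * m ∣ b n := by
  induction m using induction_on_primes with
  | zero => intro h; omega
  | one => intro _ _ d _ h; simpa using h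
  | prime_mul q a hq ih =>
    intro h0 hc d d0 hdv
    have a0 : 0 < a := Nat.pos_of_mul_pos_left h0
    obtain ⟨n, hn⟩ := ih a0 (Nat.Coprime.coprime_mul_left hc) d d0 hdv
    obtain ⟨e, y, hy, he⟩ := Nat.exists_eq_pow_mul_and_not_dvd (Nat.mul_pos d0 a0).ne' q hq.ne_one
    obtain ⟨n', hn'⟩ := hP (q ^ (e + 1)) (pow_pos hq.pos _)
      ((Nat.Coprime.coprime_mul_right hc).pow_left _)
    refine ⟨max n n', ?_⟩
    have : d * (q * a) = q ^ (e + 1) * y := by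
      rw [mul_left_comm, he]; ring
    rw [this]
    refine Nat.Coprime.mul_dvd_of_dvd_of_dvd
      (((Nat.Prime.coprime_iff_not_dvd hq).2 hy).pow_left _)
      (hn'.trans (hd _ _ (le_max_right _ _))) ?_
    exact ((Dvd.intro_left _ he.symm).trans hn).trans (hd _ _ (le_max_left _ _))

lemma dvd_of_norm_lt {c : ℕ} (hc : 0 < c) {k : ℤ}
    (h : ‖(((k : ℝ) / c : ℝ) : UnitAddCircle)‖ < 1 / c) : (c : ℤ) ∣ k := by
  have c0 : (0 : ℝ) < c := by exact_mod_cast hc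
  rw [UnitAddCircle.norm_eq] at h
  set r := round ((k : ℝ) / c) with hr
  have e : (k : ℝ) / c - r = ((k - c * r : ℤ) : ℝ) / c := by push_cast; field_simp
  rw [e, abs_div, abs_of_pos c0, div_lt_div_iff_of_pos_right c0] at h
  have h2 : |k - c * r| < 1 := by exact_mod_cast h
  exact ⟨r, by have := Int.abs_lt_one_iff.1 h2; omega⟩

lemma GoodChain.trans {b M c : ℕ → ℕ} (h : GoodChain M c) (h1 : ∀ i, ∃ m, b i ∣ M m)
    (h2 : ∀ m, ∃ i, M m ∣ b i) : GoodChain b c := by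
  obtain ⟨a1, a2, a3, a4, a5, a6, a7⟩ := h
  refine ⟨a1, a2, a3, a4, a5, fun i => ?_, fun n => ?_⟩
  · obtain ⟨m, hm⟩ := h1 i
    obtain ⟨n, hn⟩ := a6 m
    exact ⟨n, hm.trans hn⟩
  · obtain ⟨m, hm⟩ := a7 n
    obtain ⟨i, hi⟩ := h2 m
    exact ⟨i, hm.trans hi⟩

theorem four_chains {b : ℕ → ℕ} (b0 : b 0 = 1) (bp : ∀ n, 0 < b n)
    (hd : ∀ m n, m ≤ n → b m ∣ b n) (bg : ∀ n, n ≤ b n) (p : ℕ)
    (hP : ∀ m, 0 < m → Nat.Coprime m (p + 1) → ∃ n, m ∣ b n) (α : ℝ) :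
    ∃ c : Fin 4 → ℕ → ℕ, (∀ s, GoodChain b (c s)) ∧ ∃ δ₀ : ℝ, 0 < δ₀ ∧ ∀ δ ≤ δ₀, ∀ k : ℤ,
      (∀ s n, 1 ≤ n → ‖(((k : ℝ) / c s n : ℝ) : UnitAddCircle)‖ ≤ δ) →
      ‖((k * α : ℝ) : UnitAddCircle)‖ ≤ 8 * δ := by
  classical
  set β : ℕ → ℕ := fun n => b (Nat.findGreatest (fun i => b i ≤ n + 1) n) with hβ
  have β1 : ∀ n, β n ≤ n + 1 := fun n =>
    Nat.findGreatest_spec (P := fun i => b i ≤ n + 1) (Nat.zero_le n) (by simp [b0])
  have β2 : ∀ i n, b i ≤ n → b i ∣ β n := fun i n h =>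
    hd _ _ (Nat.le_findGreatest ((bg i).trans h) (by omega))
  have hC : ∀ n, Real.log (β n * cost p (n / 2)) ≤ (2 + 16 * (2 * p + 3)) * (3 / 2) ^ n := by
    intro n
    have a0 : (0 : ℝ) < β n := by exact_mod_cast bp _
    have a1 : (0 : ℝ) < cost p (n / 2) := by exact_mod_cast cost_pos _ _
    have a2 : (β n : ℝ) ≤ n + 1 := by exact_mod_cast β1 n
    have a3 := Real.log_le_sub_one_of_pos a0
    have a4 : 1 + (n : ℝ) * (1 / 2) ≤ (1 + 1 / 2) ^ n := one_add_mul_le_pow (by norm_num) n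
    have a5 : (9 / 4 : ℝ) ^ (n / 2) ≤ (3 / 2) ^ n := by
      rw [show (9 / 4 : ℝ) = (3 / 2) ^ 2 by norm_num, ← pow_mul]
      exact pow_le_pow_right₀ (by norm_num) (by omega)
    have a6 := (log_cost p (n / 2)).trans (mul_le_mul_of_nonneg_left a5 (by positivity))
    rw [Real.log_mul a0.ne' a1.ne']
    norm_num at a4
    linarith
  obtain ⟨η, η0, hη⟩ := greedy p β (fun n => cost p (n / 2)) (fun n => bp _)
    (fun n => cost_pos _ _) _ (by positivity) hC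
  obtain ⟨i, hi⟩ := exists_nat_gt (1 / η)
  have bi : (0 : ℝ) < b i := by exact_mod_cast bp i
  set j : ℤ := ⌈α * b i⌉ - 1 with hj
  have t1 : 0 < α - j / b i := by
    have := Int.ceil_lt_add_one (α * b i)
    rw [sub_pos, div_lt_iff₀ bi, hj]; push_cast; linarith
  have t2 : α - j / b i ≤ η := by
    have a := Int.le_ceil (α * b i)
    have c : (i : ℝ) ≤ b i := by exact_mod_cast bg i
    rw [div_lt_iff₀ η0] at hi
    have d : α - j / b i = (α * b i - j) / b i := by field_simp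
    rw [d, div_le_iff₀ bi, hj]; push_cast
    nlinarith
  obtain ⟨M, M0, M1, Ms, Mh⟩ := hη _ t1 t2
  have Mp : ∀ n, 0 < M n ∧ ∃ i, M n ∣ b i := by
    intro n
    induction n using Nat.twoStepInduction with
    | zero => exact ⟨by omega, 0, by simp [M0]⟩
    | one => exact ⟨by omega, 0, by simp [M1]⟩
    | more n ih _ =>
      obtain ⟨t, ht⟩ := Ms n
      obtain ⟨a, i, hi⟩ := ih
      have l0 : 0 < Nat.lcm (M n) (β n) := Nat.lcm_pos a (bp _)
      have c0 := cost_pos p (n / 2)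
      rw [ht]
      refine ⟨by positivity, ?_⟩
      rw [mul_assoc]
      refine dvd_mul_coprime hd hP _ (by positivity) ?_ _ l0 ⟨max i _, Nat.lcm_dvd
        (hi.trans (hd _ _ (le_max_left _ _))) (hd _ _ (le_max_right _ _))⟩
      have h : 1 + (p + 1) * t ≡ 1 [MOD p + 1] := by simp [Nat.ModEq]
      have h2 := (cost_mod p (n / 2)).mul h
      rw [Nat.Coprime, h2.gcd_eq]; simp
  have Md : ∀ n, M n * cost p (n / 2) ∣ M (n + 2) := by
    intro n
    obtain ⟨t, ht⟩ := Ms n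
    rw [ht]
    exact (mul_dvd_mul_right (Nat.dvd_lcm_left _ _) _).mul_right _
  have Mb : ∀ i n, b i ≤ n → b i ∣ M (n + 2) := by
    intro i n h
    obtain ⟨t, ht⟩ := Ms n
    rw [ht]
    exact (((β2 i n h).trans (Nat.dvd_lcm_right _ _)).mul_right _).mul_right _
  obtain ⟨u, v, gu, gv, h1⟩ := two_chains p (fun m => M (2 * m + 2)) (fun m => (Mp _).1)
    (by simpa [M0] using Md 0) (fun m => by
      have := Md (2 * m + 2)
      rwa [show (2 * m + 2) / 2 = m + 1 by omega] at this)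
  obtain ⟨u', v', gu', gv', h2⟩ := two_chains p (fun m => M (2 * m + 1 + 2)) (fun m => (Mp _).1)
    (by simpa [M1] using Md 1) (fun m => by
      have := Md (2 * m + 1 + 2)
      rwa [show (2 * m + 1 + 2) / 2 = m + 1 by omega] at this)
  have f1 : ∀ {c}, GoodChain (fun m => M (2 * m + 2)) c → GoodChain b c := fun h =>
    h.trans (fun i => ⟨b i, Mb i _ (by omega)⟩) (fun m => (Mp _).2)
  have f2 : ∀ {c}, GoodChain (fun m => M (2 * m + 1 + 2)) c → GoodChain b c := fun h =>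
    h.trans (fun i => ⟨b i, Mb i _ (by omega)⟩) (fun m => (Mp _).2)
  obtain ⟨n0, hn0⟩ := (f1 gu).2.2.2.2.2.1 i
  have u0 : (0 : ℝ) < u (n0 + 1) := by exact_mod_cast gu.2.1 _
  refine ⟨![u, v, u', v'], fun s => ?_, min (1 / 8) (1 / u (n0 + 1) / 2),
    lt_min (by norm_num) (by positivity), fun δ hδ k hk => ?_⟩
  · fin_cases s
    exacts [f1 gu, f1 gv, f2 gu', f2 gv']
  have d1 : δ ≤ 1 / 8 := hδ.trans (min_le_left _ _)
  have d2 : δ < 1 / u (n0 + 1) :=
    (hδ.trans (min_le_right _ _)).trans_lt (half_lt_self (by positivity))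
  have k1 : (b i : ℤ) ∣ k :=
    (Int.natCast_dvd_natCast.2 (hn0.trans (gu.2.2.1 n0))).trans
      (dvd_of_norm_lt (gu.2.1 _) ((hk 0 (n0 + 1) (by omega)).trans_lt d2))
  obtain ⟨z, hz⟩ := k1
  have e : ((k * α : ℝ) : UnitAddCircle) = ((k * (α - j / b i) : ℝ) : UnitAddCircle) := by
    have a : (k : ℝ) * α = k * (α - j / b i) + ((z * j : ℤ) : ℝ) := by
      rw [hz]; push_cast; field_simp; ring
    have c : ((((z * j : ℤ) : ℝ)) : UnitAddCircle) = 0 := by
      rw [AddCircle.coe_eq_zero_iff]; exact ⟨z * j, by simp⟩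
    rw [a, AddCircle.coe_add, c, add_zero]
  have h4 : HasSum (fun n => (((k : ℝ) * ((p + 1) / M (n + 2)) : ℝ) : UnitAddCircle))
      ((k * (α - j / b i) : ℝ) : UnitAddCircle) :=
    (Mh.mul_left (k : ℝ)).map (QuotientAddGroup.mk' (AddSubgroup.zmultiples (1 : ℝ)))
      continuous_quotient_mk'
  have h5 : HasSum (fun n : ℕ => 2 * δ * (1 / 2 : ℝ) ^ n) (4 * δ) := by
    have := hasSum_geometric_two.mul_left (2 * δ)
    rwa [show 2 * δ * 2 = 4 * δ by ring] at this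
  have h6 : HasSum (fun n : ℕ => 2 * δ * (1 / 2 : ℝ) ^ (n / 2)) (4 * δ + 4 * δ) := by
    refine HasSum.even_add_odd ?_ ?_
    · simpa only [Nat.mul_div_cancel_left _ two_pos] using h5
    · have : ∀ m, (2 * m + 1) / 2 = m := fun m => by omega
      simpa only [this] using h5
  rw [e, ← h4.tsum_eq, show 8 * δ = 4 * δ + 4 * δ by ring]
  refine tsum_of_norm_bounded h6 fun n => ?_
  obtain ⟨m, rfl | rfl⟩ := Nat.even_or_odd' n
  · rw [Nat.mul_div_cancel_left _ two_pos]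
    exact h1 k δ d1 (hk 0) (hk 1) m
  · rw [show (2 * m + 1) / 2 = m by omega]
    exact h2 k δ d1 (hk 2) (hk 3) m

end Pool.Agent.Lib.MP_4ba7b3_gt
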