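import Mathlib

namespace Pool.Agent.Lib.MP_4ba7b3_gt

open Filter Topology

/-- `T n j`: both `T n j ∣ T n (j+1)` and `T n j + 1 ∣ T n (j+1) + 1`, with large ratios. -/
def T (n : ℕ) : ℕ → ℕ
  | 0 => 1
  | j + 1 => T n j + (n + 2) * T n j * (T n j + 1)

lemma T_pos (n j : ℕ) : 0 < T n j := by
  induction j with
  | zero => simp [T]
  | succ j ih => simp only [T]; omega

lemma T_dvd (n j d : ℕ) : T n j ∣ T n (j + d) := by
  induction d with
  | zero => exact dvd_rfl
  | succ d ih =>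
    refine ih.trans ⟨1 + (n + 2) * (T n (j + d) + 1), ?_⟩
    rw [← add_assoc]; simp only [T]; ring

lemma T_succ_dvd (n j d : ℕ) : T n j + 1 ∣ T n (j + d) + 1 := by
  induction d with
  | zero => exact dvd_rfl
  | succ d ih =>
    refine ih.trans ⟨1 + (n + 2) * T n (j + d), ?_⟩
    rw [← add_assoc]; simp only [T]; ring

/-- The block moduli. -/
def M : ℕ → ℕ
  | 0 => 8
  | n + 1 => (n + 4).factorial * M n * (2 ^ (n + 1) * (T (n + 1) (n + 1) * (T (n + 1) (n + 1) + 1)))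

lemma M_pos (n : ℕ) : 0 < M n := by
  induction n with
  | zero => simp [M]
  | succ n ih =>
    have := T_pos (n + 1) (n + 1)
    simp only [M]; positivity

lemma M_succ_ge (n : ℕ) : 4 * M n ≤ M (n + 1) := by
  have h1 := T_pos (n + 1) (n + 1)
  have h2 : 4 ≤ (n + 4).factorial := le_trans (by omega) (Nat.self_le_factorial _)
  have h3 : 1 ≤ 2 ^ (n + 1) * (T (n + 1) (n + 1) * (T (n + 1) (n + 1) + 1)) :=
    Nat.one_le_iff_ne_zero.mpr (by positivity)
  simp only [M]
  calc 4 * M n ≤ (n + 4).factorial * M n := Nat.mul_le_mul_right _ h2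
    _ = (n + 4).factorial * M n * 1 := (mul_one _).symm
    _ ≤ _ := Nat.mul_le_mul_left _ h3

lemma M_dvd_succ (n : ℕ) : M n ∣ M (n + 1) := by
  simp only [M]
  exact Dvd.dvd.mul_right (Dvd.intro_left _ rfl) _

lemma M_dvd (n d : ℕ) : M n ∣ M (n + d) := by
  induction d with
  | zero => exact dvd_rfl
  | succ d ih => exact ih.trans (M_dvd_succ _)

lemma M_ge (n d : ℕ) : 4 ^ d * M n ≤ M (n + d) := by
  induction d with
  | zero => simp
  | succ d ih =>
    calc 4 ^ (d + 1) * M n = 4 * (4 ^ d * M n) := by ring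
      _ ≤ 4 * M (n + d) := Nat.mul_le_mul_left _ ih
      _ ≤ M (n + d + 1) := M_succ_ge _

lemma fact_dvd_M (n : ℕ) : (n + 1).factorial ∣ M (n + 1) := by
  simp only [M]
  exact Dvd.dvd.mul_right (Dvd.dvd.mul_right (Nat.factorial_dvd_factorial (by omega)) _) _

lemma top_dvd_M (n : ℕ) : 2 ^ n * (T n n * (T n n + 1)) ∣ M n := by
  cases n with
  | zero => simp [M, T]
  | succ n => simp only [M]; exact Dvd.intro_left _ rfl

lemma dvdU {n j : ℕ} (h : j ≤ n) : 2 ^ j * (T n j + 1) ∣ M n := by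
  obtain ⟨d, rfl⟩ := Nat.exists_eq_add_of_le h
  refine dvd_trans ?_ (top_dvd_M _)
  exact mul_dvd_mul (pow_dvd_pow _ h) (Dvd.dvd.mul_left (T_succ_dvd _ _ _) _)

lemma dvdV {n j : ℕ} (h : j ≤ n) : 2 ^ j * T n j ∣ M n := by
  obtain ⟨d, rfl⟩ := Nat.exists_eq_add_of_le h
  refine dvd_trans ?_ (top_dvd_M _)
  exact mul_dvd_mul (pow_dvd_pow _ h) (Dvd.dvd.mul_right (T_dvd _ _ _) _)

def U (s : ℕ × ℕ) : ℕ := M s.1 / (2 ^ s.2 * (T s.1 s.2 + 1))
def V (s : ℕ × ℕ) : ℕ := M s.1 / (2 ^ s.2 * T s.1 s.2)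

lemma U_mul {n j : ℕ} (h : j ≤ n) : U (n, j) * (2 ^ j * (T n j + 1)) = M n :=
  Nat.div_mul_cancel (dvdU h)

lemma V_mul {n j : ℕ} (h : j ≤ n) : V (n, j) * (2 ^ j * T n j) = M n :=
  Nat.div_mul_cancel (dvdV h)

lemma UV {n j : ℕ} (h : j ≤ n) :
    (1 : ℝ) / U (n, j) - 1 / V (n, j) = 2 ^ j / M n := by
  have h1 : (U (n, j) : ℝ) * (2 ^ j * (T n j + 1)) = M n := by exact_mod_cast U_mul h
  have h2 : (V (n, j) : ℝ) * (2 ^ j * T n j) = M n := by exact_mod_cast V_mul h
  have hM : (0 : ℝ) < M n := by exact_mod_cast M_pos n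
  have hU : (U (n, j) : ℝ) ≠ 0 := by intro h0; rw [h0] at h1; linarith
  have hV : (V (n, j) : ℝ) ≠ 0 := by intro h0; rw [h0] at h2; linarith
  have e1 : (1 : ℝ) / U (n, j) = 2 ^ j * (T n j + 1) / M n := by
    rw [div_eq_div_iff hU hM.ne']; linarith
  have e2 : (1 : ℝ) / V (n, j) = 2 ^ j * T n j / M n := by
    rw [div_eq_div_iff hV hM.ne']; linarith
  rw [e1, e2]; ring

def next (s : ℕ × ℕ) : ℕ × ℕ := if s.2 = 0 then (s.1 + 1, s.1 + 1) else (s.1, s.2 - 1)

def st (i : ℕ) : ℕ × ℕ := next^[i] (0, 0)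

lemma st_succ (i : ℕ) : st (i + 1) = next (st i) := Function.iterate_succ_apply' _ _ _

lemma st_le (i : ℕ) : (st i).2 ≤ (st i).1 := by
  induction i with
  | zero => simp [st]
  | succ i ih =>
    rw [st_succ, next]
    split_ifs
    · simp
    · simp only; omega

lemma st_mono : Monotone fun i => (st i).1 := by
  apply monotone_nat_of_le_succ
  intro i
  rw [st_succ, next]
  split_ifs <;> simp

lemma st_surj (n : ℕ) : ∀ j ≤ n, ∃ i, st i = (n, j) := by
  have down : ∀ n, (∃ i, st i = (n, n)) → ∀ d, d ≤ n → ∃ i, st i = (n, n - d) := by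
    intro n h d
    induction d with
    | zero => intro _; simpa using h
    | succ d ih =>
      intro hd
      obtain ⟨i, hi⟩ := ih (by omega)
      refine ⟨i + 1, ?_⟩
      rw [st_succ, hi, next, if_neg (by simp only; omega)]
      simp only [Prod.mk.injEq, true_and]; omega
  have top : ∀ n, ∃ i, st i = (n, n) := by
    intro n
    induction n with
    | zero => exact ⟨0, rfl⟩
    | succ n ih =>
      obtain ⟨i, hi⟩ := down n ih n le_rfl
      refine ⟨i + 1, ?_⟩
      rw [st_succ, hi, next, if_pos (by simp)]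
  intro j hj
  obtain ⟨i, hi⟩ := down n (top n) (n - j) (by omega)
  exact ⟨i, by rw [hi]; congr 1; omega⟩

lemma st_tendsto : Tendsto (fun i => (st i).1) atTop atTop := by
  apply tendsto_atTop_atTop_of_monotone st_mono
  intro n
  obtain ⟨i, hi⟩ := st_surj n 0 (Nat.zero_le _)
  exact ⟨i, by rw [hi]⟩

lemma U_next {n j : ℕ} (h : j ≤ n) : ∃ q, n + 2 ≤ q ∧ U (next (n, j)) = q * U (n, j) := by
  have hp : ∀ a b : ℕ, 0 < 2 ^ a * (b + 1) := fun a b => by positivity
  cases j with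
  | zero =>
    have h1 := U_mul h
    have h2 := U_mul (le_refl (n + 1))
    have h3 := T_pos (n + 1) (n + 1)
    refine ⟨(n + 4).factorial * 2 * T (n + 1) (n + 1), ?_, ?_⟩
    · have : n + 4 ≤ (n + 4).factorial := Nat.self_le_factorial _
      nlinarith
    · simp only [next, if_true]
      apply Nat.eq_of_mul_eq_mul_right (hp (n + 1) (T (n + 1) (n + 1)))
      rw [h2]
      conv_lhs => simp only [M]
      rw [← h1]; simp only [T]; ring
  | succ j =>
    have h1 := U_mul h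
    have h2 := U_mul (show j ≤ n by omega)
    have h3 := T_pos n j
    refine ⟨2 * (1 + (n + 2) * T n j), by nlinarith, ?_⟩
    simp only [next, Nat.succ_ne_zero, if_false, Nat.add_sub_cancel]
    apply Nat.eq_of_mul_eq_mul_right (hp j (T n j))
    rw [h2, ← h1]; simp only [T]; ring

lemma V_next {n j : ℕ} (h : j ≤ n) : ∃ q, n + 2 ≤ q ∧ V (next (n, j)) = q * V (n, j) := by
  have hp : ∀ a b c : ℕ, 0 < 2 ^ a * T b c := fun a b c => by
    have := T_pos b c
    positivity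
  cases j with
  | zero =>
    have h1 := V_mul h
    have h2 := V_mul (le_refl (n + 1))
    refine ⟨(n + 4).factorial * (T (n + 1) (n + 1) + 1), ?_, ?_⟩
    · have : n + 4 ≤ (n + 4).factorial := Nat.self_le_factorial _
      nlinarith
    · simp only [next, if_true]
      apply Nat.eq_of_mul_eq_mul_right (hp (n + 1) (n + 1) (n + 1))
      rw [h2]
      conv_lhs => simp only [M]
      rw [← h1]; simp only [T]; ring
  | succ j =>
    have h1 := V_mul h
    have h2 := V_mul (show j ≤ n by omega)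
    refine ⟨2 * (1 + (n + 2) * (T n j + 1)), by nlinarith, ?_⟩
    simp only [next, Nat.succ_ne_zero, if_false, Nat.add_sub_cancel]
    apply Nat.eq_of_mul_eq_mul_right (hp j n j)
    rw [h2, ← h1]; simp only [T]; ring

lemma fact_dvd_U (n : ℕ) : (n + 1).factorial ∣ U (n + 1, n + 1) := by
  have h2 := U_mul (le_refl (n + 1))
  have : U (n + 1, n + 1) = (n + 4).factorial * M n * T (n + 1) (n + 1) := by
    apply Nat.eq_of_mul_eq_mul_right (show 0 < 2 ^ (n + 1) * (T (n + 1) (n + 1) + 1) by positivity)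
    rw [h2]
    conv_lhs => simp only [M]
    ring
  rw [this]
  exact Dvd.dvd.mul_right (Dvd.dvd.mul_right (Nat.factorial_dvd_factorial (by omega)) _) _

lemma fact_dvd_V (n : ℕ) : (n + 1).factorial ∣ V (n + 1, n + 1) := by
  have h2 := V_mul (le_refl (n + 1))
  have h3 := T_pos (n + 1) (n + 1)
  have : V (n + 1, n + 1) = (n + 4).factorial * M n * (T (n + 1) (n + 1) + 1) := by
    apply Nat.eq_of_mul_eq_mul_right (show 0 < 2 ^ (n + 1) * T (n + 1) (n + 1) by positivity)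
    rw [h2]
    conv_lhs => simp only [M]
    ring
  rw [this]
  exact Dvd.dvd.mul_right (Dvd.dvd.mul_right (Nat.factorial_dvd_factorial (by omega)) _) _

/-- The sequence `1, W (st 0), W (st 1), …`. -/
def chain (W : ℕ × ℕ → ℕ) : ℕ → ℕ
  | 0 => 1
  | i + 1 => W (st i)

lemma chain_spec (W : ℕ × ℕ → ℕ) (h0 : 2 ≤ W (0, 0))
    (hW : ∀ n j, j ≤ n → ∃ q, n + 2 ≤ q ∧ W (next (n, j)) = q * W (n, j))
    (hf : ∀ n, (n + 1).factorial ∣ W (n + 1, n + 1)) :
    chain W 0 = 1 ∧ (∀ n, 0 < chain W n) ∧ (∀ n, chain W n ∣ chain W (n + 1)) ∧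
      (∀ n, chain W n ≠ chain W (n + 1)) ∧
      Tendsto (fun n => (chain W (n + 1) : ℝ) / chain W n) atTop atTop ∧
      (∀ n, ∃ m, (n + 1).factorial ∣ chain W m) ∧
      (∀ n j, j ≤ n → ∃ i, 1 ≤ i ∧ chain W i = W (n, j)) := by
  have step : ∀ i, ∃ q, (st i).1 + 2 ≤ q ∧ chain W (i + 2) = q * chain W (i + 1) := by
    intro i
    obtain ⟨q, h1, h2⟩ := hW (st i).1 (st i).2 (st_le i)
    exact ⟨q, h1, by simp only [chain]; rw [st_succ]; exact h2⟩
  have h1 : chain W 1 = W (0, 0) := rfl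
  have pos : ∀ n, 0 < chain W n := by
    intro n
    induction n with
    | zero => simp [chain]
    | succ n ih =>
      cases n with
      | zero => rw [zero_add, h1]; omega
      | succ n =>
        obtain ⟨q, a, b⟩ := step n
        rw [b]; exact Nat.mul_pos (by omega) ih
  have hit : ∀ n j, j ≤ n → ∃ i, 1 ≤ i ∧ chain W i = W (n, j) := by
    intro n j hj
    obtain ⟨i, hi⟩ := st_surj n j hj
    exact ⟨i + 1, by omega, by simp only [chain]; rw [hi]⟩
  refine ⟨rfl, pos, ?_, ?_, ?_, ?_, hit⟩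
  · rintro (_ | n)
    · simp [chain]
    · obtain ⟨q, -, b⟩ := step n
      rw [b]; exact Dvd.intro_left _ rfl
  · rintro (_ | n)
    · rw [zero_add, h1]; simp only [chain]; omega
    · obtain ⟨q, a, b⟩ := step n
      have := pos (n + 1)
      rw [b]; nlinarith
  · rw [← tendsto_add_atTop_iff_nat 1]
    have h2 : Tendsto (fun i => (((st i).1 : ℕ) : ℝ)) atTop atTop :=
      tendsto_natCast_atTop_atTop.comp st_tendsto
    apply tendsto_atTop_mono _ h2
    intro i
    obtain ⟨q, a, b⟩ := step i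
    have hp : (0 : ℝ) < chain W (i + 1) := by exact_mod_cast pos (i + 1)
    rw [show i + 1 + 1 = i + 2 from rfl, b, Nat.cast_mul, mul_div_assoc, div_self hp.ne', mul_one]
    exact_mod_cast (by omega : (st i).1 ≤ q)
  · intro n
    obtain ⟨i, -, hi⟩ := hit (n + 1) (n + 1) le_rfl
    exact ⟨i, hi ▸ hf n⟩

lemma U00 : 2 ≤ U (0, 0) := by simp [U, M, T]
lemma V00 : 2 ≤ V (0, 0) := by simp [V, M, T]

lemma norm_two_nsmul (z : UnitAddCircle) (hz : ‖z‖ ≤ 1 / 4) : ‖2 • z‖ = 2 * ‖z‖ := by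
  induction z using QuotientAddGroup.induction_on with
  | H x =>
    set r := x - round x with hr
    have e : (x : UnitAddCircle) = (r : ℝ) := by
      rw [hr, AddCircle.coe_sub]
      have : (((round x : ℤ) : ℝ) : UnitAddCircle) = 0 := by
        rw [AddCircle.coe_eq_zero_iff]; exact ⟨round x, by simp⟩
      rw [this, sub_zero]
    have n1 : ‖(x : UnitAddCircle)‖ = |r| := UnitAddCircle.norm_eq
    rw [n1] at hz
    rw [n1, e, ← AddCircle.coe_nsmul]
    have : ‖(((2 : ℕ) • r : ℝ) : UnitAddCircle)‖ = |(2 : ℕ) • r| := by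
      rw [AddCircle.norm_coe_eq_abs_iff _ one_ne_zero]
      rw [nsmul_eq_mul, abs_mul]; norm_num; linarith
    rw [this, nsmul_eq_mul, abs_mul]; norm_num

lemma norm_pow_nsmul (z : UnitAddCircle) (n : ℕ) (hz : ∀ j < n, ‖2 ^ j • z‖ ≤ 1 / 4) :
    ‖2 ^ n • z‖ = 2 ^ n * ‖z‖ := by
  induction n with
  | zero => simp
  | succ n ih =>
    rw [pow_succ', mul_nsmul', norm_two_nsmul _ (hz n (by omega)), ih (fun j hj => hz j (by omega))]
    ring

lemma summable_M : Summable fun n => (1 : ℝ) / M n := by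
  refine Summable.of_nonneg_of_le (fun n => by positivity) (fun n => ?_)
    (summable_geometric_of_lt_one (r := 1 / 4) (by norm_num) (by norm_num))
  have h1 := M_ge 0 n
  rw [zero_add] at h1
  have h2 : (4 : ℝ) ^ n ≤ M n := by
    have : 4 ^ n ≤ M n := le_trans (by simp [M]) h1
    exact_mod_cast this
  rw [one_div_pow]
  exact one_div_le_one_div_of_le (by positivity) h2

/-- The value of the character at `1`. -/
noncomputable def xi : ℝ := ∑' n, (1 : ℝ) / M n

lemma xi_bound (k : ℤ) (δ : ℝ) (hδ : δ ≤ 1 / 8)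
    (hU : ∀ n j, j ≤ n → ‖(((k : ℝ) / U (n, j) : ℝ) : UnitAddCircle)‖ ≤ δ)
    (hV : ∀ n j, j ≤ n → ‖(((k : ℝ) / V (n, j) : ℝ) : UnitAddCircle)‖ ≤ δ) :
    ‖((k * xi : ℝ) : UnitAddCircle)‖ ≤ 4 * δ := by
  have h1 : ∀ n j, j ≤ n → ‖2 ^ j • (((k : ℝ) / M n : ℝ) : UnitAddCircle)‖ ≤ 2 * δ := by
    intro n j hj
    rw [← AddCircle.coe_nsmul]
    have e : (2 ^ j : ℕ) • ((k : ℝ) / M n) = k / U (n, j) - k / V (n, j) := by
      have := UV hj
      rw [nsmul_eq_mul]; push_cast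
      calc (2 : ℝ) ^ j * (k / M n) = k * (2 ^ j / M n) := by ring
        _ = k * (1 / U (n, j) - 1 / V (n, j)) := by rw [this]
        _ = _ := by ring
    rw [e, AddCircle.coe_sub]
    calc _ ≤ _ := norm_sub_le _ _
      _ ≤ δ + δ := add_le_add (hU n j hj) (hV n j hj)
      _ = 2 * δ := by ring
  have h2 : ∀ n, ‖(((k : ℝ) / M n : ℝ) : UnitAddCircle)‖ ≤ 2 * δ * (1 / 2) ^ n := by
    intro n
    have a := norm_pow_nsmul (((k : ℝ) / M n : ℝ) : UnitAddCircle) n
      (fun j hj => (h1 n j hj.le).trans (by linarith))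
    have b := h1 n n le_rfl
    rw [a] at b
    rw [one_div_pow, mul_one_div, le_div_iff₀ (by positivity)]
    linarith
  have h3 : HasSum (fun n => (k : ℝ) / M n) (k * xi) := by
    have := summable_M.hasSum.mul_left (k : ℝ)
    simpa [xi, div_eq_mul_inv] using this
  have h4 : HasSum (fun n => (((k : ℝ) / M n : ℝ) : UnitAddCircle))
      ((k * xi : ℝ) : UnitAddCircle) :=
    h3.map (QuotientAddGroup.mk' (AddSubgroup.zmultiples (1 : ℝ))) continuous_quotient_mk'
  rw [← h4.tsum_eq]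
  have h5 : HasSum (fun n : ℕ => 2 * δ * (1 / 2 : ℝ) ^ n) (4 * δ) := by
    have := hasSum_geometric_two.mul_left (2 * δ)
    rwa [show 2 * δ * 2 = 4 * δ by ring] at this
  exact tsum_of_norm_bounded h5 h2

lemma xi_irr (m : ℕ) : ((((m + 1).factorial : ℕ) * xi : ℝ) : UnitAddCircle) ≠ 0 := by
  intro h
  rw [AddCircle.coe_eq_zero_iff] at h
  obtain ⟨z, hz⟩ := h
  rw [zsmul_eq_mul, mul_one] at hz
  obtain ⟨q, hq⟩ := fact_dvd_M m
  set n := m + 1 with hn
  have hMn : (0 : ℝ) < M n := by exact_mod_cast M_pos n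
  have h1 : (M n : ℝ) * xi = (z * q : ℤ) := by
    rw [hq]; push_cast; rw [hz]; ring
  have h2 : xi = ∑ i ∈ Finset.range (n + 1), (1 : ℝ) / M i + ∑' i, (1 : ℝ) / M (i + (n + 1)) :=
    (summable_M.sum_add_tsum_nat_add (n + 1)).symm
  have h3 : (M n : ℝ) * ∑ i ∈ Finset.range (n + 1), (1 : ℝ) / M i =
      ((∑ i ∈ Finset.range (n + 1), M n / M i : ℕ) : ℝ) := by
    rw [Finset.mul_sum]; push_cast
    apply Finset.sum_congr rfl
    intro i hi
    have hi' : i ≤ n := by have := Finset.mem_range.mp hi; omega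
    obtain ⟨d, hd⟩ := Nat.exists_eq_add_of_le hi'
    have hdv : M i ∣ M n := by rw [hd]; exact M_dvd _ _
    have hMi : (M i : ℝ) ≠ 0 := by exact_mod_cast (M_pos i).ne'
    rw [Nat.cast_div hdv hMi]; ring
  have hs : Summable fun i => (1 : ℝ) / M (i + (n + 1)) :=
    (summable_nat_add_iff (f := fun n => (1 : ℝ) / M n) (n + 1)).mpr summable_M
  have h4 : 0 < ∑' i, (1 : ℝ) / M (i + (n + 1)) := by
    apply hs.tsum_pos (fun i => by positivity) 0
    have : (0 : ℝ) < M (0 + (n + 1)) := by exact_mod_cast M_pos _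
    positivity
  have h5 : (M n : ℝ) * ∑' i, (1 : ℝ) / M (i + (n + 1)) < 1 := by
    rw [← tsum_mul_left]
    have g : HasSum (fun i : ℕ => (1 / 4 : ℝ) * (1 / 2) ^ i) (1 / 4 * 2) :=
      hasSum_geometric_two.mul_left _
    have : ∑' i, (M n : ℝ) * (1 / M (i + (n + 1))) ≤ 1 / 4 * 2 := by
      rw [← g.tsum_eq]
      apply Summable.tsum_le_tsum _ (hs.mul_left _) g.summable
      intro i
      have a := M_ge n (i + 1)
      rw [show n + (i + 1) = i + (n + 1) by ring] at a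
      have b : (4 : ℝ) ^ (i + 1) * M n ≤ M (i + (n + 1)) := by exact_mod_cast a
      have c : (0 : ℝ) < M (i + (n + 1)) := by exact_mod_cast M_pos _
      rw [mul_one_div, div_le_iff₀ c]
      have d : (2 : ℝ) ^ i ≤ 4 ^ i := pow_le_pow_left₀ (by norm_num) (by norm_num) i
      have e : (1 / 4 : ℝ) * (1 / 2) ^ i * (4 ^ (i + 1) * M n) = 4 ^ i / 2 ^ i * M n := by
        rw [one_div_pow]; field_simp; ring
      have f : (1 : ℝ) ≤ 4 ^ i / 2 ^ i := by rw [le_div_iff₀ (by positivity)]; linarith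
      calc (M n : ℝ) ≤ 4 ^ i / 2 ^ i * M n := by nlinarith
        _ = 1 / 4 * (1 / 2) ^ i * (4 ^ (i + 1) * M n) := e.symm
        _ ≤ _ := mul_le_mul_of_nonneg_left b (by positivity)
    linarith
  have h6 : (M n : ℝ) * ∑' i, (1 : ℝ) / M (i + (n + 1)) =
      ((z * q - ((∑ i ∈ Finset.range (n + 1), M n / M i : ℕ) : ℤ) : ℤ) : ℝ) := by
    rw [Int.cast_sub, ← h1, Int.cast_natCast, ← h3]
    conv_rhs => rw [h2]
    ring
  have h7 : 0 < (M n : ℝ) * ∑' i, (1 : ℝ) / M (i + (n + 1)) := mul_pos hMn h4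
  rw [h6] at h5 h7
  have a : (0 : ℤ) < z * q - ((∑ i ∈ Finset.range (n + 1), M n / M i : ℕ) : ℤ) := by
    exact_mod_cast h7
  have b : z * q - ((∑ i ∈ Finset.range (n + 1), M n / M i : ℕ) : ℤ) < 1 := by
    exact_mod_cast h5
  omega

end Pool.Agent.Lib.MP_4ba7b3_gt
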