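import Mathlib

/-! D-sequences and the topologies they define on the integers. -/

namespace Pool.Agent.Lib.MP_4ba7b3_gt

open Filter Topology

/-- D-sequences. -/
def IsDSeq (b : ℕ → ℕ) : Prop :=
  b 0 = 1 ∧ (∀ n, 0 < b n) ∧ (∀ n, b n ∣ b (n + 1)) ∧ ∀ n, b n ≠ b (n + 1)

/-- D-sequences whose ratios tend to infinity. -/
def IsDInf (c : ℕ → ℕ) : Prop :=
  IsDSeq c ∧ Tendsto (fun n => (c (n + 1) : ℝ) / (c n : ℝ)) atTop atTop

/-- The linear topology on `ℤ`: generated by the cosets `x + b n ℤ`. -/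
def lam (b : ℕ → ℕ) : TopologicalSpace ℤ :=
  TopologicalSpace.generateFrom {O : Set ℤ | ∃ (x : ℤ) (n : ℕ), O = {y | (b n : ℤ) ∣ y - x}}

/-- The topology on `ℤ` of uniform convergence on `{1 / c n + ℤ : n ≥ 1}`: a set is open iff
with each point `x` it contains `x + {k : ‖k / c n‖ ≤ ε for all n ≥ 1}` for some `ε > 0`. -/
def tau (c : ℕ → ℕ) : TopologicalSpace ℤ where
  IsOpen O := ∀ x ∈ O, ∃ ε : ℝ, 0 < ε ∧ ∀ k : ℤ,
    (∀ n, 1 ≤ n → ‖(((k : ℝ) / (c n : ℝ) : ℝ) : UnitAddCircle)‖ ≤ ε) → x + k ∈ O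
  isOpen_univ := fun _ _ => ⟨1, one_pos, fun _ _ => trivial⟩
  isOpen_inter := fun _ _ h1 h2 x hx => by
    obtain ⟨ε1, p1, q1⟩ := h1 x hx.1
    obtain ⟨ε2, p2, q2⟩ := h2 x hx.2
    exact ⟨min ε1 ε2, lt_min p1 p2, fun k hk =>
      ⟨q1 k fun n hn => (hk n hn).trans (min_le_left _ _),
        q2 k fun n hn => (hk n hn).trans (min_le_right _ _)⟩⟩
  isOpen_sUnion := fun _ h x ⟨O, hO, hx⟩ => by
    obtain ⟨ε, p, q⟩ := h O hO x hx
    exact ⟨ε, p, fun k hk => ⟨O, hO, q k hk⟩⟩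

/-- The coarsest topology finer than all `tau c` with `c` in `D_∞` and `lam c = lam b`
(in Mathlib's order on topologies, finer means smaller, so this is an infimum). -/
def supTop (b : ℕ → ℕ) : TopologicalSpace ℤ :=
  sInf {t | ∃ c : ℕ → ℕ, IsDInf c ∧ lam c = lam b ∧ t = tau c}

end Pool.Agent.Lib.MP_4ba7b3_gt
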