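import Pool.Agent.Lib.MP_4ba7b3_gt.Sieve
import Pool.Agent.Lib.MP_4ba7b3_gt.AllC

/-! Squarefree ladders that avoid a given modulus and a thin set of primes. -/

namespace Pool.Agent.Lib.MP_4ba7b3_gt

open Filter Topology

lemma Fine.mul {b : ℕ → ℕ} {x y : ℕ} (hx : Fine b x) (hy : Fine b y) (h : Nat.Coprime x y) :
    Fine b (x * y) :=
  ⟨Nat.squarefree_mul_iff.2 ⟨h, hx.1, hy.1⟩, fun p pp pd =>
    ((Nat.Prime.dvd_mul pp).1 pd).elim (hx.2 p pp) (hy.2 p pp)⟩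

lemma Fine.dvd {b : ℕ → ℕ} (hd : ∀ m n, m ≤ n → b m ∣ b n) {z : ℕ} (hz : Fine b z) :
    ∃ n, z ∣ b n := by
  classical
  choose! f hf using hz.2
  refine ⟨z.primeFactors.sup f, ?_⟩
  conv_lhs => rw [← Nat.prod_primeFactors_of_squarefree hz.1]
  refine Finset.prod_primes_dvd _ (fun p hp => (Nat.prime_of_mem_primeFactors hp).prime)
    fun p hp => ?_
  exact (hf p (Nat.prime_of_mem_primeFactors hp) (Nat.dvd_of_mem_primeFactors hp)).trans
    (hd _ _ (Finset.le_sup hp))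

lemma cop_of_diff {x y a c j : ℕ} (hx : Nat.Coprime x 2) (h : a * x = c * y + 2 ^ j) :
    Nat.Coprime x y := by
  have h1 : Nat.gcd x y ∣ c * y + 2 ^ j := h ▸ (Nat.gcd_dvd_left x y).mul_left a
  have h2 : Nat.gcd x y ∣ 2 ^ j :=
    (Nat.dvd_add_right ((Nat.gcd_dvd_right x y).mul_left c)).1 h1
  exact Nat.Coprime.eq_one_of_dvd ((hx.coprime_dvd_left (Nat.gcd_dvd_left x y)).pow_right j) h2

lemma cop_odd {w : ℕ} (hw : Odd w) : Nat.Coprime (2 + w) (2 * w) := by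
  have h2 : Nat.Coprime 2 w := Nat.coprime_two_left.2 hw
  refine Nat.Coprime.mul_right ?_ ?_
  · exact Nat.coprime_two_right.2 (even_two.add_odd hw)
  · simpa using h2

/-- The invariant of a ladder. -/
def Rung (b : ℕ → ℕ) (D m j S : ℕ) : Prop :=
  Fine b ((S + 2 * 2 ^ j) * S) ∧ Nat.Coprime ((S + 2 * 2 ^ j) * S) (2 * D) ∧ m + 2 ≤ S

lemma ladder {b : ℕ → ℕ}
    (hs : Summable ({p : ℕ | p.Prime ∧ ∀ n, ¬ p ∣ b n}.indicator fun p => (1 : ℝ) / p))
    (D m : ℕ) (hD : 0 < D) : ∃ S x y : ℕ → ℕ, ∀ j, Rung b D m j (S j) ∧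
      S (j + 1) + 2 * 2 ^ (j + 1) = (S j + 2 * 2 ^ j) * x j ∧ S (j + 1) = S j * y j ∧
      m + 2 ≤ x j ∧ m + 2 ≤ y j := by
  obtain ⟨z, hz⟩ := fine_pair hs
  have base : ∃ S, Rung b D m 0 S := by
    obtain ⟨g, hg⟩ : ∃ g, D * z.factorial * (m + 2) = g + 1 :=
      ⟨_, (Nat.succ_pred_eq_of_pos (by positivity)).symm⟩
    have c1 : Nat.Coprime (2 * g + 1) (2 * g + 2) := by
      rw [show 2 * g + 2 = 1 + (2 * g + 1) by ring]; simp
    have c2 : Nat.Coprime (2 * g + 3) (2 * g + 2) := by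
      rw [show 2 * g + 3 = 1 + (2 * g + 2) by ring]; simp
    have e : 2 * g + 2 = 2 * D * (z.factorial * (m + 2)) := by
      rw [mul_assoc 2, ← mul_assoc D, hg]; ring
    obtain ⟨s, f1, f2⟩ := hz (2 * g + 1) (2 * g + 2) (2 * g + 3) (2 * g + 2) (by omega) (by omega)
      c1 c2 fun p pp h => by
        have : p ∣ 2 * g + 2 := e ▸ ((Nat.dvd_factorial pp.pos h).mul_right _).mul_left _
        exact ⟨this, this⟩
    have d1 : Nat.Coprime (2 * g + 1 + (2 * g + 2) * s) (2 * D) :=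
      ((Nat.coprime_add_mul_left_left _ _ _).2 c1).coprime_dvd_right (Dvd.intro _ e.symm)
    have d2 : Nat.Coprime (2 * g + 3 + (2 * g + 2) * s) (2 * D) :=
      ((Nat.coprime_add_mul_left_left _ _ _).2 c2).coprime_dvd_right (Dvd.intro _ e.symm)
    refine ⟨2 * g + 1 + (2 * g + 2) * s, ?_⟩
    unfold Rung
    rw [show 2 * g + 1 + (2 * g + 2) * s + 2 * 2 ^ 0 = 2 * g + 3 + (2 * g + 2) * s by ring]
    refine ⟨f2.mul f1 (cop_of_diff (a := 1) (c := 1) (j := 1)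
      d2.coprime_mul_right_right (by ring)), d2.mul_left d1, ?_⟩
    have : m + 2 ≤ g + 1 := hg ▸ Nat.le_mul_of_pos_left _ (by positivity)
    omega
  have step : ∀ j S, Rung b D m j S → ∃ x y, Rung b D m (j + 1) (S * y) ∧
      S * y + 2 * 2 ^ (j + 1) = (S + 2 * 2 ^ j) * x ∧ m + 2 ≤ x ∧ m + 2 ≤ y := by
    rintro j S ⟨r1, r2, r3⟩
    set A := S + 2 * 2 ^ j with hA
    have S0 : 0 < S := by omega
    have A0 : 0 < A := by omega
    obtain ⟨k, w, wo, hw⟩ := Nat.exists_eq_two_pow_mul_odd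
      (show D * z.factorial * (A * S) ≠ 0 by positivity)
    have o2 : Nat.Coprime (A * S) 2 := r2.coprime_mul_right_right
    have So : Odd S := Nat.coprime_two_right.1 o2.coprime_mul_left
    have Ao : Odd A := Nat.coprime_two_right.1 o2.coprime_mul_right
    have c1 := cop_odd (wo.mul So)
    have c2 := cop_odd (wo.mul Ao)
    obtain ⟨s, f1, f2⟩ := hz (2 + w * S) (2 * (w * S)) (2 + w * A) (2 * (w * A)) (by omega)
      (by omega) c1 c2 fun p pp h => by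
        have a : p ∣ 2 ^ k * w := hw ▸ ((Nat.dvd_factorial pp.pos h).mul_left _).mul_right _
        rcases (Nat.Prime.dvd_mul pp).1 a with a | a
        · have := pp.dvd_of_dvd_pow a
          exact ⟨this.mul_right _, this.mul_right _⟩
        · exact ⟨(a.mul_right _).mul_left _, (a.mul_right _).mul_left _⟩
    have cop : ∀ T, Nat.Coprime (2 + w * T) (2 * (w * T)) →
        Nat.Coprime (2 + w * T + 2 * (w * T) * s) (2 * D) ∧
        Nat.Coprime (2 + w * T + 2 * (w * T) * s) (A * S) := by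
      intro T c
      have d := (Nat.coprime_add_mul_left_left _ _ s).2 c
      have d2 := d.coprime_mul_right_right
      have d3 : Nat.Coprime (2 + w * T + 2 * (w * T) * s) (D * z.factorial * (A * S)) := by
        rw [hw]
        exact (d2.pow_right k).mul_right d.coprime_mul_left_right.coprime_mul_right_right
      exact ⟨d2.mul_right d3.coprime_mul_right_right.coprime_mul_right_right,
        d3.coprime_mul_left_right⟩
    obtain ⟨p1, p2⟩ := cop S c1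
    obtain ⟨q1, q2⟩ := cop A c2
    set x := 2 + w * S + 2 * (w * S) * s with hx
    set y := 2 + w * A + 2 * (w * A) * s with hy
    have e : S * y + 2 * 2 ^ (j + 1) = A * x := by rw [hx, hy, hA]; ring
    have xy : Nat.Coprime x y := cop_of_diff (a := A) (c := S) (j := j + 2)
      p1.coprime_mul_right_right (by rw [← e]; ring)
    have w0 : 0 < w := wo.pos
    have x1 : S ≤ w * S := Nat.le_mul_of_pos_left _ w0
    have y1 : A ≤ w * A := Nat.le_mul_of_pos_left _ w0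
    refine ⟨x, y, ?_, e, by omega, by omega⟩
    unfold Rung
    rw [e, show A * x * (S * y) = A * S * (x * y) by ring]
    refine ⟨r1.mul (f1.mul f2 xy) (p2.mul_left q2).symm, r2.mul_left (p1.mul_left q1), ?_⟩
    exact r3.trans (Nat.le_mul_of_pos_right _ (by omega))
  choose! x y hxy using step
  obtain ⟨S0, h0⟩ := base
  let S : ℕ → ℕ := fun j => Nat.rec S0 (fun j T => T * y j T) j
  have hS : ∀ j, Rung b D m j (S j) := by
    intro j
    induction j with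
    | zero => exact h0
    | succ j ih => exact (hxy j _ ih).1
  exact ⟨S, fun j => x j (S j), fun j => y j (S j), fun j =>
    ⟨hS j, (hxy j _ (hS j)).2.1, rfl, (hxy j _ (hS j)).2.2⟩⟩

lemma sum_not_int (M : ℕ → ℕ) (hM : ∀ m, 0 < M m) (hd : ∀ m, ∃ q, 8 ≤ q ∧ M (m + 1) = M m * q) :
    Summable (fun m => (2 : ℝ) / M m) ∧
      ∀ m d, d ∣ M m → ((d * ∑' m, (2 : ℝ) / M m : ℝ) : UnitAddCircle) ≠ 0 := by
  have ge : ∀ n d, M n ∣ M (n + d) ∧ 8 ^ d * M n ≤ M (n + d) := by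
    intro n d
    induction d with
    | zero => simp
    | succ d ih =>
      obtain ⟨q, q8, hq⟩ := hd (n + d)
      rw [← add_assoc, hq]
      refine ⟨ih.1.mul_right _, ?_⟩
      calc 8 ^ (d + 1) * M n = 8 ^ d * M n * 8 := by ring
        _ ≤ _ := Nat.mul_le_mul ih.2 q8
  have bd : ∀ n i, (M n : ℝ) * (2 / M (i + (n + 1))) ≤ 1 / 4 * (1 / 2) ^ i := by
    intro n i
    have a := (ge n (i + 1)).2
    rw [show n + (i + 1) = i + (n + 1) by ring] at a
    have a' : (8 : ℝ) ^ (i + 1) * M n ≤ M (i + (n + 1)) := by exact_mod_cast a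
    have c : (0 : ℝ) < M (i + (n + 1)) := by exact_mod_cast hM _
    have c' : (0 : ℝ) < M n := by exact_mod_cast hM _
    have d : (1 : ℝ) ≤ (1 / 2) ^ i * 8 ^ i := by
      rw [← mul_pow]; exact one_le_pow₀ (by norm_num)
    rw [← mul_div_assoc, div_le_iff₀ c]
    calc (M n : ℝ) * 2 ≤ (1 / 2) ^ i * 8 ^ i * (M n * 2) := le_mul_of_one_le_left (by positivity) d
      _ = 1 / 4 * (1 / 2) ^ i * (8 ^ (i + 1) * M n) := by ring
      _ ≤ _ := mul_le_mul_of_nonneg_left a' (by positivity)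
  have g : HasSum (fun i : ℕ => (1 / 4 : ℝ) * (1 / 2) ^ i) (1 / 4 * 2) :=
    hasSum_geometric_two.mul_left _
  have sm : Summable (fun m => (2 : ℝ) / M m) := by
    rw [← summable_nat_add_iff 1]
    have M0 : (M 0 : ℝ) ≠ 0 := by exact_mod_cast (hM 0).ne'
    rw [← summable_mul_left_iff M0]
    exact Summable.of_nonneg_of_le (fun i => by positivity) (bd 0) g.summable
  refine ⟨sm, fun n d hdv h => ?_⟩
  rw [AddCircle.coe_eq_zero_iff] at h
  obtain ⟨z, hz⟩ := h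
  rw [zsmul_eq_mul, mul_one] at hz
  obtain ⟨q, hq⟩ := hdv
  set ξ := ∑' m, (2 : ℝ) / M m with hξ
  have hMn : (0 : ℝ) < M n := by exact_mod_cast hM n
  have h1 : (M n : ℝ) * ξ = (z * q : ℤ) := by
    rw [hq]; push_cast; rw [hz]; ring
  have h2 : ξ = ∑ i ∈ Finset.range (n + 1), (2 : ℝ) / M i + ∑' i, (2 : ℝ) / M (i + (n + 1)) :=
    (sm.sum_add_tsum_nat_add (n + 1)).symm
  have h3 : (M n : ℝ) * ∑ i ∈ Finset.range (n + 1), (2 : ℝ) / M i =
      ((∑ i ∈ Finset.range (n + 1), M n / M i * 2 : ℕ) : ℝ) := by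
    rw [Finset.mul_sum]; push_cast
    apply Finset.sum_congr rfl
    intro i hi
    have hi' : i ≤ n := by have := Finset.mem_range.mp hi; omega
    obtain ⟨d, hd⟩ := Nat.exists_eq_add_of_le hi'
    have hdv : M i ∣ M n := by rw [hd]; exact (ge _ _).1
    have hMi : (M i : ℝ) ≠ 0 := by exact_mod_cast (hM i).ne'
    rw [Nat.cast_div hdv hMi]; ring
  have hs : Summable fun i => (2 : ℝ) / M (i + (n + 1)) :=
    (summable_nat_add_iff (f := fun n => (2 : ℝ) / M n) (n + 1)).mpr sm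
  have h4 : 0 < ∑' i, (2 : ℝ) / M (i + (n + 1)) := by
    apply hs.tsum_pos (fun i => by positivity) 0
    have : (0 : ℝ) < M (0 + (n + 1)) := by exact_mod_cast hM _
    positivity
  have h5 : (M n : ℝ) * ∑' i, (2 : ℝ) / M (i + (n + 1)) < 1 := by
    rw [← tsum_mul_left]
    have : ∑' i, (M n : ℝ) * (2 / M (i + (n + 1))) ≤ 1 / 4 * 2 := by
      rw [← g.tsum_eq]
      exact Summable.tsum_le_tsum (bd n) (hs.mul_left _) g.summable
    linarith
  have h6 : (M n : ℝ) * ∑' i, (2 : ℝ) / M (i + (n + 1)) =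
      ((z * q - ((∑ i ∈ Finset.range (n + 1), M n / M i * 2 : ℕ) : ℤ) : ℤ) : ℝ) := by
    rw [Int.cast_sub, ← h1, Int.cast_natCast, ← h3]
    conv_rhs => rw [h2]
    ring
  have h7 : 0 < (M n : ℝ) * ∑' i, (2 : ℝ) / M (i + (n + 1)) := mul_pos hMn h4
  rw [h6] at h5 h7
  have a : (0 : ℤ) < z * q - ((∑ i ∈ Finset.range (n + 1), M n / M i * 2 : ℕ) : ℤ) := by
    exact_mod_cast h7
  have c : z * q - ((∑ i ∈ Finset.range (n + 1), M n / M i * 2 : ℕ) : ℤ) < 1 := by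
    exact_mod_cast h5
  omega

theorem many {b : ℕ → ℕ} (bp : ∀ n, 0 < b n) (hd : ∀ m n, m ≤ n → b m ∣ b n)
    (hs : Summable ({p : ℕ | p.Prime ∧ ∀ n, ¬ p ∣ b n}.indicator fun p => (1 : ℝ) / p)) :
    ∃ (ξ : ℝ) (u v : ℕ → ℕ), GoodChain b u ∧ GoodChain b v ∧
      (∀ n, ((b n * ξ : ℝ) : UnitAddCircle) ≠ 0) ∧ ∀ (k : ℤ) (δ : ℝ), δ ≤ 1 / 8 →
      (∀ n, 1 ≤ n → ‖(((k : ℝ) / u n : ℝ) : UnitAddCircle)‖ ≤ δ) →
      (∀ n, 1 ≤ n → ‖(((k : ℝ) / v n : ℝ) : UnitAddCircle)‖ ≤ δ) →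
      ‖((k * ξ : ℝ) : UnitAddCircle)‖ ≤ 4 * δ := by
  choose! S x y hS using ladder hs
  let N : ℕ → ℕ := fun m => Nat.rec 1 (fun m T => Nat.lcm T (b m) *
    ((S (Nat.lcm T (b m)) m m + 2 * 2 ^ m) * S (Nat.lcm T (b m)) m m)) m
  set D : ℕ → ℕ := fun m => Nat.lcm (N m) (b m) with hD
  have Ns : ∀ m, N (m + 1) = D m * ((S (D m) m m + 2 * 2 ^ m) * S (D m) m m) := fun m => rfl
  have Np : ∀ m, 0 < N m ∧ ∃ i, N m ∣ b i := by
    intro m
    induction m with
    | zero => exact ⟨one_pos, 0, one_dvd _⟩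
    | succ m ih =>
      obtain ⟨a, i, hi⟩ := ih
      have D0 : 0 < D m := Nat.lcm_pos a (bp m)
      obtain ⟨r1, r2, r3⟩ := (hS (D m) m D0 m).1
      obtain ⟨n, hn⟩ := r1.dvd hd
      rw [Ns]
      refine ⟨Nat.mul_pos D0 (Nat.mul_pos (by omega) (by omega)), max (max i m) n, ?_⟩
      refine Nat.Coprime.mul_dvd_of_dvd_of_dvd r2.coprime_mul_left_right.symm
        (Nat.lcm_dvd (hi.trans (hd _ _ (by omega))) (hd _ _ (by omega)))
        (hn.trans (hd _ _ (by omega)))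
  have D0 : ∀ m, 0 < D m := fun m => Nat.lcm_pos (Np m).1 (bp m)
  have S2 : ∀ m j, m + 2 ≤ S (D m) m j := fun m j => (hS _ m (D0 m) j).1.2.2
  obtain ⟨u, v, gu, gv, h⟩ := two_chains_gen 2 (fun m => N (m + 1))
    (fun m j => S (D m) m j + 2 * 2 ^ j) (fun m => S (D m) m) (fun m => x (D m) m)
    (fun m => y (D m) m) (fun _ => 1) (fun m => (Np (m + 1)).1)
    (fun m j => by have := S2 m j; omega) (fun _ _ => rfl) (fun m j => (hS _ m (D0 m) j).2.1)
    (fun m j => (hS _ m (D0 m) j).2.2.1) (fun m j => (hS _ m (D0 m) j).2.2.2.1)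
    (fun m j => (hS _ m (D0 m) j).2.2.2.2) (fun m => by simpa using S2 m m)
    (by rw [mul_one]; exact Dvd.intro_left _ (Ns 0).symm)
    (fun m => by
      rw [mul_one, Ns (m + 1)]
      exact mul_dvd_mul_right (Nat.dvd_lcm_left _ _) _)
  have bN : ∀ m, b m ∣ N (m + 1) := fun m => by
    rw [Ns]; exact (Nat.dvd_lcm_right _ _).mul_right _
  obtain ⟨sm, irr⟩ := sum_not_int (fun m => N (m + 1)) (fun m => (Np (m + 1)).1) fun m => by
    obtain ⟨t, ht⟩ : N (m + 1) ∣ D (m + 1) := Nat.dvd_lcm_left _ _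
    have t0 : 0 < t := Nat.pos_of_ne_zero fun h => by
      rw [h, mul_zero] at ht; exact (D0 (m + 1)).ne' ht
    have a := S2 (m + 1) (m + 1)
    refine ⟨t * ((S (D (m + 1)) (m + 1) (m + 1) + 2 * 2 ^ (m + 1)) *
      S (D (m + 1)) (m + 1) (m + 1)), ?_, ?_⟩
    · refine le_trans ?_ (Nat.le_mul_of_pos_left _ t0)
      exact le_trans (by norm_num) (Nat.mul_le_mul (m₁ := 3) (n₁ := 3) (by omega) (by omega))
    · rw [← mul_assoc, ← ht]
  have f : ∀ {c}, GoodChain (fun m => N (m + 1)) c → GoodChain b c := fun h =>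
    h.trans (fun i => ⟨i, bN i⟩) fun m => (Np (m + 1)).2
  refine ⟨_, u, v, f gu, f gv, fun n => irr n _ (bN n), fun k δ hδ hU hV => ?_⟩
  have h4 : HasSum (fun n => (((k : ℝ) * (2 / N (n + 1)) : ℝ) : UnitAddCircle))
      ((k * ∑' m, (2 : ℝ) / N (m + 1) : ℝ) : UnitAddCircle) :=
    (sm.hasSum.mul_left (k : ℝ)).map (QuotientAddGroup.mk' (AddSubgroup.zmultiples (1 : ℝ)))
      continuous_quotient_mk'
  have h5 : HasSum (fun n : ℕ => 2 * δ * (1 / 2 : ℝ) ^ n) (4 * δ) := by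
    have := hasSum_geometric_two.mul_left (2 * δ)
    rwa [show 2 * δ * 2 = 4 * δ by ring] at this
  rw [← h4.tsum_eq]
  exact tsum_of_norm_bounded h5 fun n => by simpa using h k δ hδ hU hV n

end Pool.Agent.Lib.MP_4ba7b3_gt
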