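import Mathlib

/-! An elementary sieve: two linear forms avoid a summable family of moduli. -/

namespace Pool.Agent.Lib.MP_4ba7b3_gt

open Finset

lemma count_one {q u v : ℕ} (_hq : 0 < q) (hc : Nat.Coprime q v) (X : ℕ) :
    (#{s ∈ range X | q ∣ u + v * s} : ℝ) ≤ X / q + 1 := by
  have h : #{s ∈ range X | q ∣ u + v * s} ≤ #(range (X / q + 1)) := by
    refine card_le_card_of_injOn (fun s => s / q) (fun s hs => ?_) (fun s hs t ht e => ?_)
    · have := mem_range.1 (mem_filter.1 (mem_coe.1 hs)).1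
      exact mem_coe.2 (mem_range.2 (Nat.lt_succ_of_le (Nat.div_le_div_right this.le)))
    · have a := (mem_filter.1 (mem_coe.1 hs)).2
      have c := (mem_filter.1 (mem_coe.1 ht)).2
      have d : u + v * s ≡ u + v * t [MOD q] :=
        ((Nat.modEq_zero_iff_dvd).2 a).trans ((Nat.modEq_zero_iff_dvd).2 c).symm
      have f : s ≡ t [MOD q] := Nat.ModEq.cancel_left_of_coprime hc (Nat.ModEq.add_left_cancel' _ d)
      have e' : s / q = t / q := e
      rw [← Nat.div_add_mod s q, ← Nat.div_add_mod t q, e', f]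
  rw [card_range] at h
  have h2 : ((X / q : ℕ) : ℝ) ≤ X / q := Nat.cast_div_le
  have h3 : (#{s ∈ range X | q ∣ u + v * s} : ℝ) ≤ ((X / q : ℕ) : ℝ) + 1 := by exact_mod_cast h
  linarith

lemma tail_small {I : Set ℕ} {φ : ℕ → ℕ} (hs : Summable (I.indicator fun i => (1 : ℝ) / φ i))
    {ε : ℝ} (hε : 0 < ε) :
    ∃ y : ℕ, ∀ F : Finset ℕ, (∀ i ∈ F, i ∈ I ∧ y < i) → ∑ i ∈ F, (1 : ℝ) / φ i ≤ ε := by
  obtain ⟨T, hT⟩ := summable_iff_vanishing_norm.1 hs ε hε
  refine ⟨T.sup id, fun F hF => ?_⟩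
  have := hT F (disjoint_left.2 fun i hi hi' => by
    have := le_sup (f := id) hi'
    have := (hF i hi).2
    simp only [id] at *
    omega)
  rw [sum_congr rfl fun i hi => Set.indicator_of_mem (hF i hi).1 _] at this
  exact (le_abs_self _).trans this.le

open Classical in
lemma one_form {I : Set ℕ} {φ : ℕ → ℕ} (hφ : ∀ i, i ≤ φ i)
    (hs : Summable (I.indicator fun i => (1 : ℝ) / φ i)) :
    ∃ y : ℕ, ∀ u v : ℕ, 0 < u →
      (∀ i ∈ I, (∀ s, ¬ φ i ∣ u + v * s) ∨ (y < i ∧ Nat.Coprime (φ i) v)) →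
      ∃ X₀ : ℕ, ∀ X ≥ X₀, (#{s ∈ range X | ∃ i ∈ I, φ i ∣ u + v * s} : ℝ) ≤ 3 / 16 * X := by
  obtain ⟨y, hy⟩ := tail_small hs (show (0 : ℝ) < 1 / 16 by norm_num)
  refine ⟨y, fun u v hu h => ?_⟩
  have c0 : (0 : ℝ) < (u + v : ℕ) := by exact_mod_cast (by omega : 0 < u + v)
  obtain ⟨z, hz⟩ := tail_small hs (show (0 : ℝ) < 1 / 16 / (u + v : ℕ) by positivity)
  refine ⟨16 * (z + 1), fun X hX => ?_⟩
  set F := {i ∈ range ((u + v) * X + 1) |
    i ∈ I ∧ y < i ∧ Nat.Coprime (φ i) v ∧ φ i ≤ (u + v) * X} with hF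
  have sub : {s ∈ range X | ∃ i ∈ I, φ i ∣ u + v * s} ⊆
      F.biUnion fun i => {s ∈ range X | φ i ∣ u + v * s} := by
    intro s hs
    obtain ⟨s1, i, i1, i2⟩ := mem_filter.1 hs
    obtain ⟨a, c⟩ := (h i i1).resolve_left fun hh => hh s i2
    have s2 := mem_range.1 s1
    have d : φ i ≤ (u + v) * X := (Nat.le_of_dvd (by omega) i2).trans (by nlinarith)
    exact mem_biUnion.2 ⟨i, mem_filter.2 ⟨mem_range.2 (by have := hφ i; omega), i1, a, c, d⟩,
      mem_filter.2 ⟨s1, i2⟩⟩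
  have X0 : (0 : ℝ) ≤ X := Nat.cast_nonneg X
  have h1 : (#{s ∈ range X | ∃ i ∈ I, φ i ∣ u + v * s} : ℝ) ≤ ∑ i ∈ F, ((X : ℝ) / φ i + 1) := by
    refine le_trans ?_ (sum_le_sum fun i hi => count_one (u := u) ?_ (mem_filter.1 hi).2.2.2.1 X)
    · exact_mod_cast (card_le_card sub).trans card_biUnion_le
    · have := (mem_filter.1 hi).2.2.1
      have := hφ i
      omega
  have h2 : ∑ i ∈ F, (X : ℝ) / φ i ≤ X * (1 / 16) := by
    have := hy F fun i hi => ⟨(mem_filter.1 hi).2.1, (mem_filter.1 hi).2.2.1⟩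
    calc _ = X * ∑ i ∈ F, (1 : ℝ) / φ i := by
          rw [mul_sum]; exact sum_congr rfl fun i _ => by ring
      _ ≤ _ := mul_le_mul_of_nonneg_left this X0
  have h3 : (#{i ∈ F | z < i} : ℝ) ≤ X * (1 / 16) := by
    have a := hz {i ∈ F | z < i} fun i hi =>
      ⟨(mem_filter.1 (mem_filter.1 hi).1).2.1, (mem_filter.1 hi).2⟩
    calc (#{i ∈ F | z < i} : ℝ) = ∑ _i ∈ {i ∈ F | z < i}, (1 : ℝ) := by simp
      _ ≤ ∑ i ∈ {i ∈ F | z < i}, ((u + v : ℕ) * X : ℝ) * (1 / φ i) := by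
          refine sum_le_sum fun i hi => ?_
          have c : (φ i : ℝ) ≤ (u + v : ℕ) * X := by
            exact_mod_cast (mem_filter.1 (mem_filter.1 hi).1).2.2.2.2
          have d : (0 : ℝ) < φ i := by
            have := (mem_filter.1 hi).2
            have := hφ i
            exact_mod_cast (by omega : 0 < φ i)
          rw [mul_one_div, le_div_iff₀ d]; linarith
      _ = (u + v : ℕ) * X * ∑ i ∈ {i ∈ F | z < i}, (1 : ℝ) / φ i := by rw [mul_sum]
      _ ≤ (u + v : ℕ) * X * (1 / 16 / (u + v : ℕ)) := mul_le_mul_of_nonneg_left a (by positivity)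
      _ = _ := by field_simp
  have h4 : #{i ∈ F | ¬ z < i} ≤ z + 1 := by
    rw [← card_range (z + 1)]
    exact card_le_card fun i hi => mem_range.2 (by have := (mem_filter.1 hi).2; omega)
  have h5 := card_filter_add_card_filter_not (s := F) (fun i => z < i)
  have h6 : (#F : ℝ) ≤ #{i ∈ F | z < i} + (z + 1) := by exact_mod_cast (by omega)
  have h7 : (16 : ℝ) * (z + 1) ≤ X := by exact_mod_cast hX
  rw [sum_add_distrib, sum_const, nsmul_eq_mul, mul_one] at h1
  linarith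

/-- Squarefree numbers all of whose prime factors divide some `b n`. -/
def Fine (b : ℕ → ℕ) (z : ℕ) : Prop := Squarefree z ∧ ∀ p, p.Prime → p ∣ z → ∃ n, p ∣ b n

lemma fine_pair {b : ℕ → ℕ}
    (hs : Summable ({p : ℕ | p.Prime ∧ ∀ n, ¬ p ∣ b n}.indicator fun p => (1 : ℝ) / p)) :
    ∃ y : ℕ, ∀ u v u' v' : ℕ, 0 < u → 0 < u' → Nat.Coprime u v → Nat.Coprime u' v' →
      (∀ p, p.Prime → p ≤ y → p ∣ v ∧ p ∣ v') →
      ∃ s, Fine b (u + v * s) ∧ Fine b (u' + v' * s) := by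
  classical
  obtain ⟨y1, h1⟩ := one_form (φ := fun i => i) (fun _ => le_rfl) hs
  have hs2 : Summable ({p : ℕ | p.Prime}.indicator fun i => (1 : ℝ) / ((i * i : ℕ) : ℝ)) := by
    refine Summable.indicator ?_ _
    simpa [sq] using Real.summable_one_div_nat_pow.2 (show 1 < 2 by norm_num)
  obtain ⟨y2, h2⟩ := one_form (φ := fun i => i * i) (fun i => Nat.le_mul_self i) hs2
  have one : ∀ u v : ℕ, 0 < u → Nat.Coprime u v → (∀ p, p.Prime → p ≤ max y1 y2 → p ∣ v) →
      ∃ X₀ : ℕ, ∀ X ≥ X₀, (#{s ∈ range X | ¬ Fine b (u + v * s)} : ℝ) ≤ 3 / 8 * X := by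
    intro u v hu hc hp
    have nd : ∀ p, p.Prime → p ∣ v → ∀ s, ¬ p ∣ u + v * s := fun p pp pv s h =>
      pp.one_lt.ne' (Nat.eq_one_of_dvd_coprimes hc ((Nat.dvd_add_left (pv.mul_right s)).1 h) pv)
    obtain ⟨X1, a1⟩ := h1 u v hu fun p pp => by
      by_cases pv : p ∣ v
      · exact Or.inl (nd p pp.1 pv)
      · exact Or.inr ⟨by by_contra h; exact pv (hp p pp.1 (by omega)),
          (Nat.Prime.coprime_iff_not_dvd pp.1).2 pv⟩
    obtain ⟨X2, a2⟩ := h2 u v hu fun p pp => by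
      by_cases pv : p ∣ v
      · exact Or.inl fun s h => nd p pp pv s ((Dvd.intro _ rfl).trans h)
      · have := (Nat.Prime.coprime_iff_not_dvd pp).2 pv
        exact Or.inr ⟨by by_contra h; exact pv (hp p pp (by omega)), this.mul_left this⟩
    refine ⟨max X1 X2, fun X hX => ?_⟩
    have b1 := a1 X (by omega)
    have b2 := a2 X (by omega)
    have sub : {s ∈ range X | ¬ Fine b (u + v * s)} ⊆
        {s ∈ range X | ∃ i ∈ {p : ℕ | p.Prime ∧ ∀ n, ¬ p ∣ b n}, i ∣ u + v * s} ∪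
        {s ∈ range X | ∃ i ∈ {p : ℕ | p.Prime}, i * i ∣ u + v * s} := by
      intro s hs
      obtain ⟨s1, s2⟩ := mem_filter.1 hs
      rw [mem_union, mem_filter, mem_filter]
      by_contra h
      push Not at h
      refine s2 ⟨Nat.squarefree_iff_prime_squarefree.2 fun p pp => h.2 s1 p pp, fun p pp pd => ?_⟩
      by_contra h3
      exact h.1 s1 p ⟨pp, fun n hn => h3 ⟨n, hn⟩⟩ pd
    have c := (Nat.cast_le (α := ℝ)).2 ((card_le_card sub).trans (card_union_le _ _))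
    push_cast at c
    refine c.trans ?_
    convert add_le_add b1 b2 using 1
    ring
  refine ⟨max y1 y2, fun u v u' v' hu hu' hc hc' hp => ?_⟩
  obtain ⟨X1, a1⟩ := one u v hu hc fun p pp h => (hp p pp h).1
  obtain ⟨X2, a2⟩ := one u' v' hu' hc' fun p pp h => (hp p pp h).2
  by_contra hn
  set X := max X1 X2 + 1 with hX
  have b1 := a1 X (by omega)
  have b2 := a2 X (by omega)
  have sub : range X ⊆ {s ∈ range X | ¬ Fine b (u + v * s)} ∪
      {s ∈ range X | ¬ Fine b (u' + v' * s)} := by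
    intro s hs
    rw [mem_union, mem_filter, mem_filter]
    by_contra h
    push Not at h
    exact hn ⟨s, h.1 hs, h.2 hs⟩
  have c := (Nat.cast_le (α := ℝ)).2 ((card_le_card sub).trans (card_union_le _ _))
  rw [card_range] at c
  push_cast at c
  have X0 : (0 : ℝ) < X := by exact_mod_cast (by omega : 0 < X)
  linarith

end Pool.Agent.Lib.MP_4ba7b3_gt
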