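import Pool.Agent.Lib.MP_4ba7b3_gt.Defs
import Pool.Agent.Lib.MP_4ba7b3_gt.AllA

/-! Topological lemmas on `lam`, `tau` and `supTop`. -/

namespace Pool.Agent.Lib.MP_4ba7b3_gt

open Filter Topology

lemma lam_le {b c : ℕ → ℕ} (h : ∀ n, ∃ m, c n ∣ b m) : lam b ≤ lam c := by
  apply le_generateFrom
  rintro _ ⟨x, n, rfl⟩
  obtain ⟨m, hm⟩ := h n
  letI := lam b
  rw [isOpen_iff_forall_mem_open]
  intro y hy
  refine ⟨{z | (b m : ℤ) ∣ z - y}, ?_, ?_, by simp⟩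
  · intro z hz
    have h1 : (c n : ℤ) ∣ z - y := (Int.natCast_dvd_natCast.mpr hm).trans hz
    have h2 : (c n : ℤ) ∣ y - x := hy
    have := dvd_add h1 h2
    rwa [sub_add_sub_cancel] at this
  · exact TopologicalSpace.isOpen_generateFrom_of_mem ⟨y, m, rfl⟩

lemma lam_open {b : ℕ → ℕ} (hb : ∀ m n, m ≤ n → b m ∣ b n) {O : Set ℤ} (h : IsOpen[lam b] O) :
    ∀ x ∈ O, ∃ m, ∀ k : ℤ, (b m : ℤ) ∣ k → x + k ∈ O := by
  induction h with
  | basic s hs =>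
    obtain ⟨y, n, rfl⟩ := hs
    intro x hx
    refine ⟨n, fun k hk => ?_⟩
    have h2 : (b n : ℤ) ∣ x - y := hx
    have := dvd_add h2 hk
    show (b n : ℤ) ∣ x + k - y
    rwa [show x + k - y = x - y + k by ring]
  | univ => exact fun _ _ => ⟨0, fun _ _ => trivial⟩
  | inter s t _ _ ih1 ih2 =>
    intro x hx
    obtain ⟨m1, h1⟩ := ih1 x hx.1
    obtain ⟨m2, h2⟩ := ih2 x hx.2
    exact ⟨max m1 m2, fun k hk =>
      ⟨h1 k ((Int.natCast_dvd_natCast.mpr (hb _ _ (le_max_left _ _))).trans hk),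
        h2 k ((Int.natCast_dvd_natCast.mpr (hb _ _ (le_max_right _ _))).trans hk)⟩⟩
  | sUnion S _ ih =>
    rintro x ⟨O, hO, hx⟩
    obtain ⟨m, hm⟩ := ih O hO x hx
    exact ⟨m, fun k hk => ⟨O, hO, hm k hk⟩⟩

/-- Open balls for `tau c`. -/
def tball (c : ℕ → ℕ) (x : ℤ) (δ : ℝ) : Set ℤ :=
  {y | ∃ δ' < δ, ∀ n, 1 ≤ n → ‖((((y - x : ℤ) : ℝ) / (c n : ℝ) : ℝ) : UnitAddCircle)‖ ≤ δ'}

lemma tball_open (c : ℕ → ℕ) (x : ℤ) (δ : ℝ) : IsOpen[tau c] (tball c x δ) := by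
  rintro y ⟨δ', h1, h2⟩
  refine ⟨(δ - δ') / 2, by linarith, fun k hk => ⟨δ' + (δ - δ') / 2, by linarith, fun n hn => ?_⟩⟩
  have e : (((y + k - x : ℤ) : ℝ) / (c n : ℝ)) = ((y - x : ℤ) : ℝ) / (c n : ℝ) + (k : ℝ) / c n := by
    push_cast; ring
  rw [e, AddCircle.coe_add]
  exact (norm_add_le _ _).trans (add_le_add (h2 n hn) (hk n hn))

lemma mem_tball (c : ℕ → ℕ) (x : ℤ) {δ : ℝ} (h : 0 < δ) : x ∈ tball c x δ :=
  ⟨0, h, fun n _ => by simp⟩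

lemma IsDSeq.dvd {b : ℕ → ℕ} (hb : IsDSeq b) (m n : ℕ) (h : m ≤ n) : b m ∣ b n := by
  induction h with
  | refl => exact dvd_rfl
  | step _ ih => exact ih.trans (hb.2.2.1 _)

lemma IsDSeq.le {b : ℕ → ℕ} (hb : IsDSeq b) (n : ℕ) : n ≤ b n := by
  induction n with
  | zero => omega
  | succ n ih =>
    have := Nat.le_of_dvd (hb.2.1 _) (hb.2.2.1 n)
    have := hb.2.2.2 n
    omega

lemma GoodChain.dinf {b c : ℕ → ℕ} (h : GoodChain b c) : IsDInf c ∧ lam c = lam b := by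
  obtain ⟨a1, a2, a3, a4, a5, a6, a7⟩ := h
  exact ⟨⟨⟨a1, a2, a3, a4⟩, a5⟩, le_antisymm (lam_le a6) (lam_le a7)⟩

lemma chi_eq (χ : ℤ →+ UnitAddCircle) {α : ℝ} (h : χ 1 = (α : UnitAddCircle)) (k : ℤ) :
    χ k = ((k * α : ℝ) : UnitAddCircle) := by
  have : k = k • (1 : ℤ) := by simp
  rw [this, map_zsmul, h, ← AddCircle.coe_zsmul]
  simp

/-- A linear estimate on the basic neighbourhoods gives continuity. -/
lemma cont_of_bound {ι : Type} [Finite ι] (c : ι → ℕ → ℕ) (χ : ℤ →+ UnitAddCircle) {δ₀ : ℝ}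
    (h0 : 0 < δ₀) (h : ∀ δ ≤ δ₀, ∀ k : ℤ,
      (∀ s n, 1 ≤ n → ‖(((k : ℝ) / c s n : ℝ) : UnitAddCircle)‖ ≤ δ) → ‖χ k‖ ≤ 8 * δ) :
    Continuous[⨅ s, tau (c s), _] χ := by
  letI : TopologicalSpace ℤ := ⨅ s, tau (c s)
  rw [continuous_def]
  intro O hO
  rw [isOpen_iff_forall_mem_open]
  intro x hx
  obtain ⟨ε, hε, hball⟩ := Metric.isOpen_iff.mp hO _ hx
  set δ := min (ε / 16) δ₀ with hδ
  have hδ0 : 0 < δ := lt_min (by linarith) h0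
  refine ⟨⋂ s, tball (c s) x δ, ?_, ?_, Set.mem_iInter.2 fun s => mem_tball _ _ hδ0⟩
  · intro y hy
    apply hball
    rw [Metric.mem_ball, dist_eq_norm, ← map_sub]
    have := h δ (min_le_right _ _) (y - x) fun s n hn => by
      obtain ⟨δ', p1, q1⟩ := Set.mem_iInter.1 hy s
      exact (q1 n hn).trans p1.le
    have h3 : δ ≤ ε / 16 := min_le_left _ _
    linarith
  · exact isOpen_iInter_of_finite fun s => (tball_open _ _ _).mono (iInf_le _ s)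

lemma supTop_le {ι : Type} {b : ℕ → ℕ} (c : ι → ℕ → ℕ) (h : ∀ s, IsDInf (c s) ∧ lam (c s) = lam b) :
    supTop b ≤ ⨅ s, tau (c s) :=
  le_iInf fun s => sInf_le ⟨c s, (h s).1, (h s).2, rfl⟩

/-- A `lam b`-continuous character kills some `b m`. -/
lemma kill_of_cont {b : ℕ → ℕ} (hb : IsDSeq b) (χ : ℤ →+ UnitAddCircle)
    (hc : Continuous[lam b, _] χ) : ∃ m, χ (b m : ℤ) = 0 := by
  have h1 := (@continuous_def _ _ (lam b) _ _).mp hc _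
    (Metric.isOpen_ball (x := (0 : UnitAddCircle)) (ε := 1 / 4))
  obtain ⟨m, hm⟩ := lam_open hb.dvd h1 0 (by simp)
  refine ⟨m, ?_⟩
  set z := χ (b m : ℤ) with hz
  have h2 : ∀ j : ℕ, ‖2 ^ j • z‖ ≤ 1 / 4 := by
    intro j
    have := hm ((2 ^ j : ℕ) • (b m : ℤ)) (by rw [nsmul_eq_mul]; exact Dvd.intro_left _ rfl)
    rw [zero_add, Set.mem_preimage, map_nsmul, Metric.mem_ball, dist_zero_right] at this
    exact this.le
  by_contra h0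
  have h3 : 0 < ‖z‖ := norm_pos_iff.mpr h0
  obtain ⟨n, hn⟩ := pow_unbounded_of_one_lt (1 / ‖z‖) (one_lt_two (α := ℝ))
  have h4 := h2 n
  rw [norm_pow_nsmul z n (fun j _ => h2 j)] at h4
  rw [div_lt_iff₀ h3] at hn
  linarith

lemma kill_of_eq {b : ℕ → ℕ} (hb : IsDSeq b) (χ : ℤ →+ UnitAddCircle) {k : ℤ} {n : ℕ}
    (h : χ 1 = (((k : ℝ) / (b n : ℝ) : ℝ) : UnitAddCircle)) : χ (b n : ℤ) = 0 := by
  rw [chi_eq χ h, AddCircle.coe_eq_zero_iff]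
  refine ⟨k, ?_⟩
  have : (b n : ℝ) ≠ 0 := by exact_mod_cast (hb.2.1 n).ne'
  rw [zsmul_eq_mul]; push_cast; field_simp

lemma isDSeq_fact : IsDSeq fun n => (n + 1).factorial :=
  ⟨rfl, fun _ => Nat.factorial_pos _, fun _ => Nat.factorial_dvd_factorial (by omega),
    fun _ => (Nat.factorial_lt_of_lt (by omega) (by omega)).ne⟩

end Pool.Agent.Lib.MP_4ba7b3_gt
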